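import Mathlib
import Pool.Agent.H96.Sing.Final
import Pool.Agent.H12.Param
import Pool.Agent.H70.SymDes.Rep
import Pool.Agent.H24.KS.Rep
import Pool.Agent.H73.TR.LocF

/-!
The theorem of Bruck, Ryser and Chowla at an exact divisor of the order, in terms of the number of
points.
-/

namespace Pool.Agent.H73.TK

open Finset
open Pool.Agent.H12 (SymmetricDesignExists)
open Pool.Agent.H24.KS (sg)

lemma sg_pow {v : ℕ} (hv : v % 2 = 1) : ((-1:ℤ))^((v-1)/2) = sg v := by
  unfold sg
  rcases (show v % 4 = 1 ∨ v % 4 = 3 by omega) with h | h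
  · rw [if_neg (by omega)]
    have : Even ((v-1)/2) := by rw [Nat.even_iff]; omega
    exact this.neg_one_pow
  · rw [if_pos h]
    have : Odd ((v-1)/2) := by rw [Nat.odd_iff]; omega
    exact this.neg_one_pow

lemma jac_of_sq {v : ℕ} {l : ℕ} (hl : l.Prime) (hlv : ¬ l ∣ v)
    (h : IsSquare (((sg v * (v:ℤ) : ℤ)) : ZMod l)) : jacobiSym (sg v * v) l = 1 := by
  have : Fact l.Prime := ⟨hl⟩
  rw [← jacobiSym.legendreSym.to_jacobiSym, legendreSym.eq_one_iff]
  · exact h
  · push_cast
    have h1 : ((v:ℕ) : ZMod l) ≠ 0 := by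
      rw [Ne, ZMod.natCast_eq_zero_iff]
      exact hlv
    have h2 : ((sg v : ℤ) : ZMod l) ≠ 0 := by
      unfold sg
      split_ifs
      · push_cast
        intro h0
        have : (1 : ZMod l) = 0 := by linear_combination -h0
        exact one_ne_zero this
      · push_cast
        exact one_ne_zero
    exact mul_ne_zero h2 h1

lemma brc_v {v k l x y z w : ℕ} (hd : SymmetricDesignExists v k l) (hk : 1 < k) (hkv : k + 1 < v)
    (hlk : l < k) (hdet : x * z = y * w + 1) (hv : v = (y + z) * (x + w) + 1)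
    (hkx : k = (y + z) * x) (hn : k - l = x * z) {p : ℕ} (hp : p.Prime) (_hp2 : p ≠ 2)
    (hpv : ¬ p ∣ v) (h1 : p ∣ x * z) (h2 : ¬ p^2 ∣ x * z) :
    Odd v ∧ jacobiSym (sg v * v) p = 1 := by
  have hfp : Fact p.Prime := ⟨hp⟩
  have hl : l = x * y := by
    have e1 : k = x * y + x * z := by rw [hkx]; ring
    omega
  rcases (hp.dvd_mul).1 h1 with hx | hz
  · -- the complementary design
    have hd' := Pool.Agent.H12.compl_design hd (by omega)
    have e2 : v + l = 2 * k + z * w := by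
      rw [hv, hl, hkx]
      nlinarith
    have e1 : v + l - 2 * k = z * w := by omega
    have e3 : v - k - (v + l - 2 * k) = k - l := by omega
    rw [e1] at hd' e3
    have hlt : z * w < v - k := by omega
    obtain ⟨g1, g2⟩ := Pool.Agent.H12.brc_local hd' hlt p (by rw [e3, hn]; exact h1)
      (by rw [e3, hn]; exact h2)
    refine ⟨Nat.odd_iff.2 g1, jac_of_sq hp hpv ?_⟩
    rw [sg_pow g1] at g2
    have e4 : ((v:ℤ) : ZMod p) = (((z * w : ℕ) : ℤ) : ZMod p) := by
      have hve : v = x * (y + 2 * z) + z * w := by nlinarith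
      have hx0 : ((x:ℕ) : ZMod p) = 0 := (ZMod.natCast_eq_zero_iff _ _).2 hx
      rw [hve]
      push_cast
      rw [hx0]
      ring
    have e5 : ((sg v * (v:ℤ) : ℤ) : ZMod p) = (((sg v * ((z * w : ℕ) : ℤ) : ℤ)) : ZMod p) := by
      rw [Int.cast_mul, Int.cast_mul, e4]
    rw [e5]
    exact g2
  · obtain ⟨g1, g2⟩ := Pool.Agent.H12.brc_local hd hlk p (by rw [hn]; exact h1)
      (by rw [hn]; exact h2)
    refine ⟨Nat.odd_iff.2 g1, jac_of_sq hp hpv ?_⟩
    rw [sg_pow g1] at g2
    have e4 : ((v:ℤ) : ZMod p) = (((l : ℕ) : ℤ) : ZMod p) := by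
      have hve : v = z * (w + 2 * x) + x * y := by nlinarith
      have hz0 : ((z:ℕ) : ZMod p) = 0 := (ZMod.natCast_eq_zero_iff _ _).2 hz
      rw [hve, hl]
      push_cast
      rw [hz0]
      ring
    have e5 : ((sg v * (v:ℤ) : ℤ) : ZMod p) = (((sg v * ((l : ℕ) : ℤ) : ℤ)) : ZMod p) := by
      rw [Int.cast_mul, Int.cast_mul, e4]
    rw [e5]
    exact g2

end Pool.Agent.H73.TK
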