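import Mathlib
import Pool.Agent.H96.Sing.Defs

/-!
Symmetric designs with automorphisms of prime power order for all odd primes exactly dividing the
number of points: definition.
(`IsSymmetricDesign`, `IsAut` are defined in `Pool.Agent.H96.Sing.Defs`.)
-/

namespace Pool.Agent.H73.TK

open Finset Pool.Agent.H96.Sing

/-- The numbers `v ≤ X` for which some symmetric `(v,k,l)`-design with `1 < k < v - 1` has, for
every odd prime `q` exactly dividing `v` (`q ∣ v`, `q^2` does not divide `v`), an automorphism of
order a power of `q` with an even number of fixed points. -/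
def richPowOrders (X : ℕ) : Set ℕ :=
  {v | v ≤ X ∧ ∃ (k l : ℕ) (B : Fin v → Finset (Fin v)), 1 < k ∧ k + 1 < v ∧
    IsSymmetricDesign v k l B ∧
    ∀ q : ℕ, q.Prime → q ≠ 2 → q ∣ v → ¬ q ^ 2 ∣ v →
      ∃ s j, IsAut B s ∧ orderOf s = q ^ j ∧ Even (univ.filter (fun x => s x = x)).card}

end Pool.Agent.H73.TK
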