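import Mathlib
import Pool.Agent.H73.TK.BrcV
import Pool.Agent.H73.TK.Defs

/-!
The arithmetic data attached to a symmetric design with automorphisms of prime power order for all
odd primes exactly dividing the number of points.
-/

namespace Pool.Agent.H73.TK

open Finset Pool.Agent.H96.Sing
open Pool.Agent.H24.KS (sg)

/-- the arithmetic data -/
structure Rep (v x y z w : ℕ) : Prop where
  hx : 0 < x
  hy : 0 < y
  hz : 0 < z
  hw : 0 < w
  det : x * z = y * w + 1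
  hv : v = (y + z) * (x + w) + 1
  P1 : ∀ l : ℕ, l.Prime → l ≠ 2 → l ∣ v → ¬ l^2 ∣ v → ∀ q : ℕ, q.Prime → q ≠ l →
    Odd (padicValNat q (x*z)) → IsSquare ((q:ℕ) : ZMod l)
  PB : ∀ l : ℕ, l.Prime → l ≠ 2 → ¬ l ∣ v → l ∣ x*z → ¬ l^2 ∣ x*z →
    Odd v ∧ jacobiSym (sg v * v) l = 1
  P0 : Even v → ∀ q : ℕ, q.Prime → ¬ Odd (padicValNat q (x*z))

lemma Rep.swap {v x y z w : ℕ} (h : Rep v x y z w) : Rep v z w x y where
  hx := h.hz
  hy := h.hw
  hz := h.hx
  hw := h.hy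
  det := by have := h.det; linarith [mul_comm x z, mul_comm y w]
  hv := by rw [h.hv]; ring
  P1 := by
    intro l h1 h2 h3 h3' q h4 h5 h6
    rw [mul_comm z x] at h6
    exact h.P1 l h1 h2 h3 h3' q h4 h5 h6
  PB := by
    intro l h1 h2 h3 h4 h5
    rw [mul_comm z x] at h4 h5
    exact h.PB l h1 h2 h3 h4 h5
  P0 := by
    intro h1 q h2
    rw [mul_comm z x]
    exact h.P0 h1 q h2

theorem rep_of_design {X v : ℕ} (hv : v ∈ richPowOrders X) : ∃ x y z w, Rep v x y z w := by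
  obtain ⟨-, k, l, B, hk, hkv, hd, haut⟩ := hv
  obtain ⟨hlk, hlv⟩ := Pool.Agent.H12.design_lt (by omega) (toH12 hd)
  have hl0 : 0 < l := by
    rcases Nat.eq_zero_or_pos l with h0 | h0
    · rw [h0, zero_mul] at hlv
      have h1 : 0 < k * (k-1) := Nat.mul_pos (by omega) (by omega)
      omega
    · exact h0
  have hadm : Pool.Agent.H12.Admissible v k l := ⟨by omega, hl0, by omega, hlv⟩
  obtain ⟨x, y, hab, hcop, ha2, hkx, hky, hl, hx0, hy0, hya⟩ := Pool.Agent.H12.admissible_facts hadm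
  set a := Nat.gcd k (v-1) with ha
  set b := Nat.gcd (k-1) (v-1) with hb
  obtain ⟨z, hz⟩ : ∃ z, a = y + z := ⟨a - y, by omega⟩
  have hz0 : 0 < z := by omega
  have hv1 : v = a * b + 1 := by omega
  have hk1 : a * x = b * y + 1 := by rw [← hkx, ← hky]
  have hxb : x < b := by
    by_contra hcon
    push Not at hcon
    have e1 : a * b ≤ a * x := Nat.mul_le_mul_left a hcon
    omega
  obtain ⟨w, hw⟩ : ∃ w, b = x + w := ⟨b - x, by omega⟩
  have hw0 : 0 < w := by omega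
  have hn : k - l = x * z := by
    rw [hl, hkx, hz]
    have : (y + z) * x = x * y + x * z := by ring
    rw [this]; simp
  have hdet : x * z = y * w + 1 := by
    rw [hz, hw] at hk1
    nlinarith
  refine ⟨x, y, z, w, hx0, hy0, hz0, hw0, hdet, by rw [hv1, hz, hw], ?_, ?_, ?_⟩
  · intro q hq hq2 hqv hqv2 p hp hpq hodd
    obtain ⟨s, j, hs, hord, hev⟩ := haut q hq hq2 hqv hqv2
    by_contra hns
    have hvodd : Odd v := by
      by_contra hcon
      rw [Nat.not_odd_iff_even] at hcon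
      obtain ⟨c, hc⟩ := Pool.Agent.H12.brc_even (toH12 hd) hlk (Nat.even_iff.mp hcon)
      have hp' : Fact p.Prime := ⟨hp⟩
      rw [← hn, hc] at hodd
      have hc0 : c ≠ 0 := by
        rintro rfl
        simp at hc
        omega
      rw [padicValNat.mul hc0 hc0] at hodd
      exact (Nat.not_even_iff_odd.mpr hodd) ⟨_, rfl⟩
    have hfq : Fact q.Prime := ⟨hq⟩
    have hfp : Fact p.Prime := ⟨hp⟩
    have hsq : s^(q^j) = 1 := by rw [← hord]; exact pow_orderOf_eq_one s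
    have htot := card_filter_add_card_filter_not (s := (univ : Finset (Fin v))) (fun x => s x = x)
    rw [card_univ, Fintype.card_fin] at htot
    have hcodd : Odd (univ.filter (fun x => s x ≠ x)).card := by
      simp only [ne_eq]
      rw [← htot, Nat.odd_add] at hvodd
      rw [← Nat.not_even_iff_odd]
      intro hcon
      exact (Nat.not_odd_iff_even.mpr hev) (hvodd.mpr hcon)
    have hkey := Pool.Agent.H73.TR.keyPow hd hlk s hs q (lt_of_le_of_ne hq.two_le (Ne.symm hq2)) j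
      hsq (by convert hcodd) p hpq (q/2) (pow_neg_one q hq2 p hns)
    rw [hn] at hkey
    exact (Nat.not_even_iff_odd.mpr hodd) hkey
  · intro p hp hp2 hpv h1 h2
    exact brc_v (toH12 hd) hk hkv hlk hdet (by rw [hv1, hz, hw]) (by rw [hkx, hz]) hn hp hp2 hpv h1 h2
  · intro hev q hq hodd
    obtain ⟨c, hc⟩ := Pool.Agent.H12.brc_even (toH12 hd) hlk (Nat.even_iff.mp hev)
    have hq' : Fact q.Prime := ⟨hq⟩
    rw [← hn, hc] at hodd
    have hc0 : c ≠ 0 := by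
      rintro rfl
      simp at hc
      omega
    rw [padicValNat.mul hc0 hc0] at hodd
    exact (Nat.not_even_iff_odd.mpr hodd) ⟨_, rfl⟩

section facts

variable {v x y z w : ℕ}

lemma Rep.bz (h : Rep v x y z w) : (x + w) * z = (y + z) * w + 1 := by
  have := h.det; nlinarith

lemma Rep.ax (h : Rep v x y z w) : (y + z) * x = (x + w) * y + 1 := by
  have := h.det; nlinarith

lemma Rep.v_eq (h : Rep v x y z w) : v = x * (y + 2 * z) + z * w := by
  have := h.det; have := h.hv; nlinarith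

lemma Rep.v_eq' (h : Rep v x y z w) : v = z * (w + 2 * x) + x * y := by
  have := h.det; have := h.hv; nlinarith

lemma Rep.dvd_v (h : Rep v x y z w) {l : ℕ} (h1 : l ∣ x) (h2 : l ∣ z) : l ∣ v := by
  rw [h.v_eq]
  exact dvd_add (Dvd.dvd.mul_right h1 _) (Dvd.dvd.mul_right h2 _)

lemma Rep.dvd_z (h : Rep v x y z w) {l : ℕ} (hl : l.Prime) (h1 : l ∣ x) (h2 : l ∣ v) : l ∣ z := by
  rw [h.v_eq] at h2
  have h3 : l ∣ z * w := (Nat.dvd_add_right (Dvd.dvd.mul_right h1 _)).mp h2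
  rcases hl.dvd_mul.mp h3 with h4 | h4
  · exact h4
  · exfalso
    have h5 : l ∣ y * w + 1 := by rw [← h.det]; exact Dvd.dvd.mul_right h1 _
    have h6 : l ∣ 1 := (Nat.dvd_add_right (Dvd.dvd.mul_left h4 _)).mp h5
    exact hl.one_lt.ne' (Nat.dvd_one.mp h6)

lemma Rep.dvd_x (h : Rep v x y z w) {l : ℕ} (hl : l.Prime) (h1 : l ∣ z) (h2 : l ∣ v) : l ∣ x :=
  h.swap.dvd_z hl h1 h2

lemma Rep.cop_z (h : Rep v x y z w) : Nat.Coprime (y + z) z := by
  have h1 := h.bz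
  rw [Nat.coprime_iff_gcd_eq_one, ← Nat.dvd_one]
  have h2 : Nat.gcd (y+z) z ∣ (x + w) * z := Dvd.dvd.mul_left (Nat.gcd_dvd_right _ _) _
  rw [h1] at h2
  exact (Nat.dvd_add_right (Dvd.dvd.mul_right (Nat.gcd_dvd_left _ _) _)).mp h2

/-- exact divisors of `x` which do not divide `v` have odd exponent in `x z` -/
lemma Rep.odd_x (h : Rep v x y z w) {l : ℕ} (hl : l.Prime) (h1 : l ∣ x) (h2 : ¬ l^2 ∣ x)
    (h3 : ¬ l ∣ v) : Odd (padicValNat l (x*z)) := by
  have : Fact l.Prime := ⟨hl⟩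
  have h4 : ¬ l ∣ z := fun h5 => h3 (h.dvd_v h1 h5)
  rw [padicValNat.mul h.hx.ne' h.hz.ne', padicValNat.eq_zero_of_not_dvd h4, add_zero]
  have h5 : 1 ≤ padicValNat l x := one_le_padicValNat_of_dvd h.hx.ne' h1
  have h6 : ¬ 2 ≤ padicValNat l x := fun h7 => h2 ((padicValNat_dvd_iff_le h.hx.ne').mpr h7)
  have h7 : padicValNat l x = 1 := by omega
  rw [h7]; exact odd_one

lemma Rep.odd_z (h : Rep v x y z w) {l : ℕ} (hl : l.Prime) (h1 : l ∣ z) (h2 : ¬ l^2 ∣ z)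
    (h3 : ¬ l ∣ v) : Odd (padicValNat l (x*z)) := by
  have := h.swap.odd_x hl h1 h2 h3
  rwa [mul_comm] at this

/-- (G1) -/
lemma Rep.jac_one (h : Rep v x y z w) {l q : ℕ} (hl : l.Prime) (hl2 : l ≠ 2) (hlv : l ∣ v)
    (hlv2 : ¬ l^2 ∣ v) (hq : q.Prime) (hql : q ≠ l) (hodd : Odd (padicValNat q (x*z))) : jacobiSym q l = 1 := by
  have : Fact l.Prime := ⟨hl⟩
  have h1 := h.P1 l hl hl2 hlv hlv2 q hq hql hodd
  rw [← jacobiSym.legendreSym.to_jacobiSym]
  rw [legendreSym.eq_one_iff]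
  · exact_mod_cast h1
  · rw [Int.cast_natCast, Ne, ZMod.natCast_eq_zero_iff]
    intro h2
    exact hql ((Nat.prime_dvd_prime_iff_eq hl hq).mp h2).symm

/-- an exact divisor of `x` or of `z` which does not divide `v` divides `x z` exactly -/
lemma Rep.exact (h : Rep v x y z w) {l : ℕ} (hl : l.Prime) (hlv : ¬ l ∣ v)
    (hx : (l ∣ x ∧ ¬ l^2 ∣ x) ∨ (l ∣ z ∧ ¬ l^2 ∣ z)) : l ∣ x * z ∧ ¬ l^2 ∣ x * z := by
  rcases hx with ⟨h1, h2⟩ | ⟨h1, h2⟩
  · have h4 : ¬ l ∣ z := fun h5 => hlv (h.dvd_v h1 h5)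
    refine ⟨Dvd.dvd.mul_right h1 _, fun h3 => h2 ?_⟩
    exact (Nat.Coprime.pow_left 2 ((Nat.Prime.coprime_iff_not_dvd hl).2 h4)).dvd_of_dvd_mul_right h3
  · have h4 : ¬ l ∣ x := fun h5 => hlv (h.dvd_v h5 h1)
    refine ⟨Dvd.dvd.mul_left h1 _, fun h3 => h2 ?_⟩
    exact (Nat.Coprime.pow_left 2 ((Nat.Prime.coprime_iff_not_dvd hl).2 h4)).dvd_of_dvd_mul_left h3

/-- (G2) -/
lemma Rep.jac_v (h : Rep v x y z w) {l : ℕ} (hl : l.Prime) (hl2 : l ≠ 2) (hlv : ¬ l ∣ v)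
    (hx : (l ∣ x ∧ ¬ l^2 ∣ x) ∨ (l ∣ z ∧ ¬ l^2 ∣ z)) : Odd v ∧ jacobiSym (sg v * v) l = 1 := by
  obtain ⟨h1, h2⟩ := h.exact hl hlv hx
  exact h.PB l hl hl2 hlv h1 h2

end facts

end Pool.Agent.H73.TK
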