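import Mathlib
import Pool.Agent.H73.TK.Rep
import Pool.Agent.H24.KS.Df2
import Pool.Agent.H24.KS.Accum
import Pool.Agent.H24.KS.SCnt

/-!
Definitions of the cases in the count of the triples `(a,b,z)`: the conditions at the primes which
divide `v` exactly (compare `Pool.Agent.H24.KS.Df`).
-/

namespace Pool.Agent.H73.TK

open Finset Classical
open Pool.Agent.H95.Gol
open Pool.Agent.H24.KS

/-- no square of a prime above the windows divides `v` -/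
def NS (K v : ℕ) : Prop := ∀ l : ℕ, l.Prime → bb (kk K) < l → ¬ l^2 ∣ v

/-- small odd prime dividing `v` exactly -/
def hasPe (K v : ℕ) : Prop := ∃ p, p.Prime ∧ p ≠ 2 ∧ p ≤ bb K ∧ p ∣ v ∧ ¬ p^2 ∣ v

/-- the quadruples -/
def Tr (X a b z x : ℕ) : Prop :=
  a ≤ b ∧ a * b < X ∧ z < a ∧ x < b ∧ Rep (a * b + 1) x (a - z) z (b - x)

/-- number of triples `(a,b,z)` with property `Q` -/
noncomputable def cnt (X : ℕ) (Q : ℕ → ℕ → ℕ → ℕ → Prop) : ℕ :=
  (((range X) ×ˢ ((range X) ×ˢ (range X))).filter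
    (fun t => ∃ x, Tr X t.1 t.2.1 t.2.2 x ∧ Q t.1 t.2.1 t.2.2 x)).card

def CS1 (K a b z x : ℕ) : Prop :=
  a < bb K ∧ 3 ≤ (Ox K z x).card ∧ hasPe K (a * b + 1) ∧ NS K (a * b + 1)

def CS2 (K a b z x : ℕ) : Prop :=
  a < bb K ∧ 1 ≤ (Ox K z x).card ∧ (Ox K z x).card ≤ 2 ∧ hasPe K (a * b + 1) ∧ NS K (a * b + 1)

def CS3 (K a b z x : ℕ) : Prop :=
  a < bb K ∧ Ox K z x = ∅ ∧ (hasPe K (a * b + 1) ∧ NS K (a * b + 1)) ∧
    ∃ q : ℕ, q.Prime ∧ bb (kk K) < q ∧ Odd (padicValNat q z)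

def CS4 (K a b z x : ℕ) : Prop :=
  NS K (a * b + 1) ∧ a < bb K ∧ Ox K z x = ∅ ∧ (∀ q : ℕ, q.Prime → bb (kk K) < q → ¬ Odd (padicValNat q z)) ∧
    ∃ q : ℕ, q.Prime ∧ q ≤ bb (kk K) ∧ q ∣ z ∧ ¬ q ∣ a * b + 1 ∧ Odd (padicValNat q (x * z))

def CS5 (K a b z x : ℕ) : Prop :=
  a < bb K ∧ Ox K z x = ∅ ∧ ∀ q : ℕ, q.Prime → Odd (padicValNat q z) → q ∣ a * b + 1

def CL0 (K a b z x : ℕ) : Prop := bb K ≤ a ∧ OL (K - 10) a b z x = ∅

def CL1 (K a b z x : ℕ) : Prop :=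
  bb K ≤ a ∧ (OL (K - 10) a b z x).card = 1 ∧ NS K (a * b + 1)

def CL2 (K a b z x : ℕ) : Prop :=
  bb K ≤ a ∧ 2 ≤ (OL (K - 10) a b z x).card ∧ hasPe (K - 10) (a * b + 1) ∧ NS K (a * b + 1)

/-- zone S: the count by `(a,z)` -/
lemma cnt_le_sum (X M : ℕ) (Q : ℕ → ℕ → ℕ → ℕ → Prop)
    (h : ∀ a b z x, Tr X a b z x → Q a b z x → a < M) :
    cnt X Q ≤ ∑ a ∈ Ico 2 M, ∑ z ∈ (Ico 1 a).filter (fun z => Nat.Coprime a z),
      Bz X a z (fun b x => Tr X a b z x ∧ Q a b z x) := by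
  unfold cnt
  have hsub : ((range X) ×ˢ ((range X) ×ˢ (range X))).filter
      (fun t => ∃ x, Tr X t.1 t.2.1 t.2.2 x ∧ Q t.1 t.2.1 t.2.2 x) ⊆
      (Ico 2 M).biUnion (fun a => ((Ico 1 a).filter (fun z => Nat.Coprime a z)).biUnion (fun z =>
        ((range X).filter (fun b => ∃ x, a * x = b * (a - z) + 1 ∧ a * b < X ∧
          (Tr X a b z x ∧ Q a b z x))).image (fun b => (a, b, z)))) := by
    rintro ⟨a, b, z⟩ ht
    rw [mem_filter, mem_product, mem_product] at ht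
    obtain ⟨⟨h1, h2, h3⟩, x, h4, h5⟩ := ht
    simp only at h1 h2 h3 h4 h5
    have hM := h a b z x h4 h5
    obtain ⟨e1, e2, e3, e4, e5⟩ := h4
    have e6 := e5.hz
    have e7 : a - z + z = a := Nat.sub_add_cancel e3.le
    rw [mem_biUnion]
    refine ⟨a, mem_Ico.mpr ⟨by omega, hM⟩, ?_⟩
    rw [mem_biUnion]
    refine ⟨z, ?_, ?_⟩
    · rw [mem_filter, mem_Ico]
      refine ⟨⟨e6, e3⟩, ?_⟩
      have := e5.cop_z
      rwa [e7] at this
    · rw [mem_image]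
      refine ⟨b, ?_, rfl⟩
      rw [mem_filter]
      refine ⟨h2, x, ?_, e2, ⟨e1, e2, e3, e4, e5⟩, h5⟩
      have := e5.ax
      rwa [e7, Nat.add_sub_cancel' e4.le] at this
  refine (card_le_card hsub).trans (card_biUnion_le.trans (sum_le_sum fun a _ => ?_))
  refine card_biUnion_le.trans (sum_le_sum fun z _ => ?_)
  exact card_image_le

/-- zone L: the count by `a` -/
lemma cnt_le_sumL (X K : ℕ) (Q : ℕ → ℕ → ℕ → ℕ → Prop) (hX : X < bb (K+7))
    (h : ∀ a b z x, Tr X a b z x → Q a b z x → bb K ≤ a) :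
    cnt X Q ≤ ∑ a ∈ Ico (bb K) (bb (K+6)), Lz X a (fun b z x => Tr X a b z x ∧ Q a b z x) := by
  unfold cnt
  have hsub : ((range X) ×ˢ ((range X) ×ˢ (range X))).filter
      (fun t => ∃ x, Tr X t.1 t.2.1 t.2.2 x ∧ Q t.1 t.2.1 t.2.2 x) ⊆
      (Ico (bb K) (bb (K+6))).biUnion (fun a =>
        (((range (X / a + 1)) ×ˢ (range a)).filter (fun t => (t.1 * t.2) % a = 1 % a ∧
          ∃ x, a * x = t.1 * (a - t.2) + 1 ∧ (Tr X a t.1 t.2 x ∧ Q a t.1 t.2 x))).image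
            (fun t => (a, t.1, t.2))) := by
    rintro ⟨a, b, z⟩ ht
    rw [mem_filter, mem_product, mem_product] at ht
    obtain ⟨⟨h1, h2, h3⟩, x, h4, h5⟩ := ht
    simp only at h1 h2 h3 h4 h5
    have hK := h a b z x h4 h5
    have hTr := h4
    obtain ⟨e1, e2, e3, e4, e5⟩ := h4
    have e6 := e5.hz
    have e7 : a - z + z = a := Nat.sub_add_cancel e3.le
    have e8 : x + (b - x) = b := Nat.add_sub_cancel' e4.le
    have ha0 : 0 < a := by omega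
    rw [mem_biUnion]
    refine ⟨a, mem_Ico.mpr ⟨hK, ?_⟩, ?_⟩
    · by_contra hcon
      push Not at hcon
      have h6 : bb (K+7) = bb (K+6) * bb (K+6) := by
        unfold bb
        rw [← pow_add]
        congr 1
        rw [pow_succ 2 (K+6)]; ring
      have h7 : bb (K+6) * bb (K+6) ≤ a * b := Nat.mul_le_mul hcon (hcon.trans e1)
      omega
    · rw [mem_image]
      refine ⟨(b, z), ?_, rfl⟩
      rw [mem_filter, mem_product, mem_range, mem_range]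
      refine ⟨⟨?_, e3⟩, ?_, x, ?_, hTr, h5⟩
      · have : b ≤ X / a := (Nat.le_div_iff_mul_le ha0).mpr (by rw [mul_comm]; exact e2.le)
        show b < X / a + 1
        omega
      · have := e5.bz
        rw [e7, e8] at this
        show (b * z) % a = 1 % a
        rw [this, Nat.mul_add_mod]
      · have := e5.ax
        rw [e7, e8] at this
        exact this
  exact (card_le_card hsub).trans (card_biUnion_le.trans (sum_le_sum fun a _ => card_image_le))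

/-- the final summation of the cases `CS1`, `CS2` -/
lemma accumulate {ι : Type} (I : Finset ι) (X K : ℕ) (Q : ℕ → ℕ → ℕ → ℕ → Prop)
    (R : ι → ℕ → ℕ → ℕ → ℕ → Prop) (hQ : ∀ a b z x, Tr X a b z x → Q a b z x → a < bb K)
    (hR : ∀ a b z x, 2 ≤ a → a < bb K → 0 < z → z < a → Tr X a b z x → Q a b z x →
      ∃ i ∈ I, R i a z b x)
    (w : ι → ℝ) (α : ℕ → ℝ) (E : ℝ)
    (hE : ∀ i ∈ I, ∀ a, 2 ≤ a → a < bb K →
      ∑ z ∈ (Ico 1 a).filter (fun z => Nat.Coprime a z), (Bz X a z (R i a z) : ℝ) ≤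
        E * w i * α a) :
    (cnt X Q : ℝ) ≤ E * (∑ i ∈ I, w i) * ∑ a ∈ Ico 2 (bb K), α a := by
  have h1 : (cnt X Q : ℝ) ≤ ∑ a ∈ Ico 2 (bb K), ∑ z ∈ (Ico 1 a).filter (fun z => Nat.Coprime a z),
      (Bz X a z (fun b x => Tr X a b z x ∧ Q a b z x) : ℝ) := by
    have := cnt_le_sum X (bb K) Q hQ
    exact_mod_cast this
  refine h1.trans ?_
  rw [mul_sum]
  refine sum_le_sum fun a ha => ?_
  rw [mem_Ico] at ha
  have h2 : ∑ z ∈ (Ico 1 a).filter (fun z => Nat.Coprime a z),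
      (Bz X a z (fun b x => Tr X a b z x ∧ Q a b z x) : ℝ) ≤
      ∑ z ∈ (Ico 1 a).filter (fun z => Nat.Coprime a z), ∑ i ∈ I, (Bz X a z (R i a z) : ℝ) := by
    refine sum_le_sum fun z hz => ?_
    rw [mem_filter, mem_Ico] at hz
    have := Bz_le_sum I X a z (fun b x => Tr X a b z x ∧ Q a b z x) (fun i => R i a z)
      (fun b x _ _ h => hR a b z x ha.1 ha.2 hz.1.1 hz.1.2 h.1 h.2)
    exact_mod_cast this
  refine h2.trans ?_
  rw [sum_comm, mul_sum, sum_mul]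
  exact sum_le_sum fun i hi => hE i hi a ha.1 ha.2

lemma cnt_le_add (X : ℕ) (Q Q1 Q2 : ℕ → ℕ → ℕ → ℕ → Prop)
    (h : ∀ a b z x, Tr X a b z x → Q a b z x → Q1 a b z x ∨ Q2 a b z x) :
    cnt X Q ≤ cnt X Q1 + cnt X Q2 := by
  unfold cnt
  refine (card_le_card ?_).trans (card_union_le _ _)
  rintro ⟨a, b, z⟩ ht
  rw [mem_filter] at ht
  obtain ⟨h1, x, h2, h3⟩ := ht
  rw [mem_union, mem_filter, mem_filter]
  rcases h a b z x h2 h3 with h4 | h4
  · exact Or.inl ⟨h1, x, h2, h4⟩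
  · exact Or.inr ⟨h1, x, h2, h4⟩

lemma cnt_or_le (X : ℕ) (Q R S : ℕ → ℕ → ℕ → ℕ → Prop)
    (h : ∀ a b z x, Q a b z x → R a b z x ∨ S a b z x) : cnt X Q ≤ cnt X R + cnt X S := by
  unfold cnt
  refine (card_le_card ?_).trans (card_union_le _ _)
  intro t ht
  rw [mem_filter] at ht
  obtain ⟨h1, x, h2, h3⟩ := ht
  rw [mem_union, mem_filter, mem_filter]
  rcases h _ _ _ _ h3 with h4 | h4
  · exact Or.inl ⟨h1, x, h2, h4⟩
  · exact Or.inr ⟨h1, x, h2, h4⟩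

end Pool.Agent.H73.TK
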