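import Mathlib
import Pool.Agent.H73.TK.Df
import Pool.Agent.H24.KS.Logic

/-!
The arithmetic of the events.
-/

namespace Pool.Agent.H73.TK

open Finset Classical
open Pool.Agent.H95.Gol
open Pool.Agent.H24.KS

lemma Tr.ha {X a b z x : ℕ} (h : Tr X a b z x) : a - z + z = a := Nat.sub_add_cancel h.2.2.1.le

lemma Tr.hb {X a b z x : ℕ} (h : Tr X a b z x) : x + (b - x) = b := Nat.add_sub_cancel' h.2.2.2.1.le

lemma Tr.rep {X a b z x : ℕ} (h : Tr X a b z x) : Rep (a * b + 1) x (a - z) z (b - x) := h.2.2.2.2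

lemma not_dvd_v {X a b z x l : ℕ} (h : Tr X a b z x) (hl : l.Prime) (hlx : l ∣ x)
    (hlz : ¬ l ∣ z) : ¬ l ∣ a * b + 1 := fun h1 => hlz (h.rep.dvd_z hl hlx h1)

/-- (G1): `A`-events do not occur -/
lemma evA {X a b z x l : ℕ} (h : Tr X a b z x) {T : Finset ℕ}
    (hT : ∀ q ∈ T, q.Prime ∧ Odd (padicValNat q (x * z))) (hl : l.Prime) (hl2 : l ≠ 2)
    (hlT : l ∉ T) (hlv : l ∣ a * b + 1) (hlv2 : ¬ l^2 ∣ a * b + 1) : ¬ AT T l := by
  rintro ⟨q, hq, hF⟩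
  have hlo : Odd l := hl.odd_of_ne_two hl2
  have hql : q ≠ l := by rintro rfl; exact hlT hq
  have h1 := h.rep.jac_one hl hl2 hlv hlv2 (hT q hq).1 hql (hT q hq).2
  have h2 : F (q:ℤ) l = 1 := by
    unfold F
    rw [if_pos hlo, h1]; norm_num
  rw [h2] at hF
  norm_num at hF

lemma odd_of_ex {X a b z x l : ℕ} (h : Tr X a b z x) (hl : l.Prime) (hlx : Ex l x ∨ Ex l z)
    (hlv : ¬ l ∣ a * b + 1) : Odd (padicValNat l (x * z)) := by
  rcases hlx with h1 | h1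
  · exact h.rep.odd_x hl h1.1 h1.2 hlv
  · exact h.rep.odd_z hl h1.1 h1.2 hlv

/-- (G1) and (G2) at an exact divisor of `x` or of `z` -/
lemma evB {X a b z x l p : ℕ} (h : Tr X a b z x) (hp : p.Prime) (hp2 : p ≠ 2)
    (hpv : p ∣ a * b + 1) (hpv2 : ¬ p^2 ∣ a * b + 1) (hl : l.Prime) (hl2 : l ≠ 2) (hlx : Ex l x ∨ Ex l z)
    (hlv : ¬ l ∣ a * b + 1) : Odd (padicValNat l (x * z)) ∧ F (ps p) l = 1 ∧
      jacobiSym (sg (a * b + 1) * ((a * b + 1 : ℕ) : ℤ)) l = 1 := by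
  have hodd := odd_of_ex h hl hlx hlv
  have hlp : l ≠ p := by rintro rfl; exact hlv hpv
  refine ⟨hodd, ?_, ?_⟩
  · rw [F_ps hp hp2 hl hl2 hlp]
    have h1 := h.rep.jac_one hp hp2 hpv hpv2 hl hlp hodd
    unfold F
    rw [if_pos (hp.odd_of_ne_two hp2), h1]; norm_num
  · exact (h.rep.jac_v hl hl2 hlv hlx).2

/-- the conditions of zone S hold -/
lemma qs_of {X K a b z x p : ℕ} (h : Tr X a b z x) {T : Finset ℕ} (hT : T ⊆ Ox K z x)
    (hp : p.Prime) (hp2 : p ≠ 2) (hpv : p ∣ a * b + 1) (hpv2 : ¬ p^2 ∣ a * b + 1) :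
    QS K a z p (sg (a * b + 1)) T b x ∧ p ∉ T ∧ ∀ q ∈ T, q.Prime ∧ q ≤ bb K := by
  refine ⟨⟨?_, hpv, ?_⟩, ?_, ?_⟩
  · intro q hq
    have := mem_Ox.mp (hT hq)
    exact ⟨this.2.2.1, this.2.2.2.1⟩
  · intro q hq hqp hex
    by_cases hqv : q ∣ a * b + 1
    · exact Or.inl hqv
    · have := evB h hp hp2 hpv hpv2 (prime_of_mem_W hq) (two_lt_of_mem_W hq).ne' (Or.inr hex) hqv
      exact Or.inr this.2
  · intro hpT
    have := mem_Ox.mp (hT hpT)
    exact not_dvd_v h hp this.2.2.1 this.2.2.2.1 hpv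
  · intro q hq
    have := mem_Ox.mp (hT hq)
    exact ⟨this.1, this.2.1⟩

/-- the events of zone S do not occur: general `T`, `B = BP p` -/
lemma evS1 {X K a b z x p : ℕ} (h : Tr X a b z x) (hNS : NS K (a * b + 1)) {T : Finset ℕ}
    (hT : T ⊆ Ox K z x)
    (hp : p.Prime) (hp2 : p ≠ 2) (hpv : p ∣ a * b + 1) (hpv2 : ¬ p^2 ∣ a * b + 1) (D : Finset ℕ) (hD : T ⊆ D) :
    EvS K a z D (AT T) (BP p) b x := by
  intro l hl hlD hlz
  have hlp := prime_of_mem_W hl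
  have hl2 := (two_lt_of_mem_W hl).ne'
  constructor
  · rintro ⟨h1, h2⟩
    exact evA h (fun q hq => ⟨(mem_Ox.mp (hT hq)).1, (mem_Ox.mp (hT hq)).2.2.2.2⟩) hlp hl2
      (fun h3 => hlD (hD h3)) h2 (hNS l hlp (lt_of_mem_W hl)) h1
  · rintro ⟨h1, h2⟩
    have h3 := not_dvd_v h hlp h2.1 (not_dvd_z hlz)
    have h4 := (evB h hp hp2 hpv hpv2 hlp hl2 (Or.inl h2) h3).2.1
    unfold BP at h1
    rw [h4] at h1
    norm_num at h1

/-- the events of zone S do not occur: `T` a set of primes of odd exponent, `Ox ⊆ D`, `B = True` -/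
lemma evS2 {X K a b z x : ℕ} (h : Tr X a b z x) (hNS : NS K (a * b + 1)) {T : Finset ℕ}
    (hT : ∀ q ∈ T, q.Prime ∧ Odd (padicValNat q (x * z))) (D : Finset ℕ) (hO : Ox K z x ⊆ D)
    (hTD : ∀ q ∈ T, q ∈ D ∨ q ∣ a * (a - z) * z ∨ q ≤ bb (kk K)) :
    EvS K a z D (AT T) (fun _ => True) b x := by
  intro l hl hlD hlz
  have hlp := prime_of_mem_W hl
  have hl2 := (two_lt_of_mem_W hl).ne'
  have hlT : l ∉ T := by
    intro h1
    rcases hTD l h1 with h2 | h2 | h2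
    · exact hlD h2
    · exact hlz h2
    · exact absurd (lt_of_mem_W hl) (not_lt.mpr h2)
  constructor
  · rintro ⟨h1, h2⟩
    exact evA h hT hlp hl2 hlT h2 (hNS l hlp (lt_of_mem_W hl)) h1
  · rintro ⟨_, h2⟩
    have h3 := not_dvd_v h hlp h2.1 (not_dvd_z hlz)
    have h4 := odd_of_ex h hlp (Or.inl h2) h3
    exact hlD (hO (mem_Ox.mpr ⟨hlp, le_of_mem_W hl, h2.1, not_dvd_z hlz, h4⟩))

/-- a prime of odd exponent in `z` which does not divide `v` has odd exponent in `x z` -/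
lemma odd_z_of {X a b z x q : ℕ} (h : Tr X a b z x) (hq : q.Prime) (hodd : Odd (padicValNat q z))
    (hqv : ¬ q ∣ a * b + 1) : Odd (padicValNat q (x * z)) ∧ q ∣ z := by
  have : Fact q.Prime := ⟨hq⟩
  have hr := h.rep
  have hqz : q ∣ z := by
    by_contra hcon
    rw [padicValNat.eq_zero_of_not_dvd hcon] at hodd
    simp at hodd
  have hqx : ¬ q ∣ x := fun h1 => hqv (hr.dvd_v h1 hqz)
  refine ⟨?_, hqz⟩
  rw [padicValNat.mul hr.hx.ne' hr.hz.ne', padicValNat.eq_zero_of_not_dvd hqx, zero_add]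
  exact hodd

end Pool.Agent.H73.TK
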