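import Mathlib
import Pool.Agent.H73.TR.Grp

/-!
Solvable transitive groups of odd degree `n`: for every prime `q` which divides `n` exactly there
is an element of order a power of `q` with an even number of fixed points.
-/

set_option autoImplicit false

open Finset Classical

namespace Pool.Agent.H73.TK

open Pool.Agent.H73.TR

/-- a nontrivial solvable subgroup contains a nontrivial elementary abelian subgroup which it
normalises -/
theorem exists_elementary {P : Type} [Group P] [Finite P] (H : Subgroup P)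
    [hs : Group.IsSolvable H] (hH : H ≠ ⊥) :
    ∃ (A : Subgroup P) (l : ℕ), l.Prime ∧ A ≤ H ∧ A ≠ ⊥ ∧ (∀ s ∈ H, ∀ a ∈ A, s * a * s⁻¹ ∈ A) ∧
      (∀ a ∈ A, ∀ b ∈ A, a * b = b * a) ∧ ∀ a ∈ A, a ^ l = 1 := by
  obtain ⟨A, hAH, hA, hnorm, hcomm⟩ := exists_abelian H hH
  obtain ⟨⟨a, ha⟩, ha0⟩ := Subgroup.ne_bot_iff_exists_ne_one.1 hA
  have ha1 : a ≠ 1 := fun h => ha0 (Subtype.ext h)
  have hN1 : orderOf a ≠ 1 := fun h => ha1 (orderOf_eq_one_iff.1 h)
  obtain ⟨l, hl, hlN⟩ := Nat.exists_prime_and_dvd hN1
  have hord : orderOf (a ^ (orderOf a / l)) = l :=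
    orderOf_pow_orderOf_div (orderOf_pos a).ne' hlN
  let E : Subgroup P := {
    carrier := {x | x ∈ A ∧ x ^ l = 1}
    one_mem' := ⟨A.one_mem, one_pow l⟩
    mul_mem' := by
      rintro x y ⟨hx, hx1⟩ ⟨hy, hy1⟩
      refine ⟨A.mul_mem hx hy, ?_⟩
      rw [(show Commute x y from hcomm x hx y hy).mul_pow, hx1, hy1, one_mul]
    inv_mem' := by
      rintro x ⟨hx, hx1⟩
      refine ⟨A.inv_mem hx, ?_⟩
      rw [inv_pow, hx1, inv_one] }
  refine ⟨E, l, hl, fun x hx => hAH hx.1, ?_, ?_, fun x hx y hy => hcomm x hx.1 y hy.1,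
    fun x hx => hx.2⟩
  · intro hE
    have h1 : a ^ (orderOf a / l) ∈ E := by
      refine ⟨A.pow_mem ha _, ?_⟩
      have h2 := pow_orderOf_eq_one (a ^ (orderOf a / l))
      rwa [hord] at h2
    rw [hE, Subgroup.mem_bot] at h1
    rw [h1, orderOf_one] at hord
    exact hl.one_lt.ne hord
  · rintro s hs' x ⟨hx, hx1⟩
    refine ⟨hnorm s hs' x hx, ?_⟩
    rw [conj_pow, hx1, mul_one, mul_inv_cancel]

/-- the order of an elementary abelian group -/
theorem card_elementary {P : Type} [Group P] [Finite P] (A : Subgroup P) {l : ℕ} (hl : l.Prime)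
    (hA : ∀ a ∈ A, a ^ l = 1) : ∃ e, Nat.card A = l ^ e := by
  have : Fact l.Prime := ⟨hl⟩
  apply (IsPGroup.iff_card (p := l) (G := A)).1
  rintro ⟨a, ha⟩
  refine ⟨1, ?_⟩
  apply Subtype.ext
  rw [pow_one]
  exact hA a ha

/-- a subgroup of odd order has odd orbits -/
theorem orbit_odd {Ω : Type} [Finite Ω] (D : Subgroup (Equiv.Perm Ω)) (hD : Odd (Nat.card D))
    (x : Ω) : Odd (MulAction.orbit D x).ncard := by
  rw [← MulAction.index_stabilizer]
  exact hD.of_dvd_nat (Subgroup.index_dvd_card _)

/-- the coset argument -/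
theorem coset_even {Ω : Type} [Fintype Ω] (A : Subgroup (Equiv.Perm Ω)) {q : ℕ} (hq : q.Prime)
    (hcomm : ∀ a ∈ A, ∀ b ∈ A, a * b = b * a) (hodd : Odd (Nat.card A))
    (hn : Odd (Fintype.card Ω))
    (hidx : ∀ x : Ω, (MulAction.stabilizer A x).index = q) :
    ∃ a : A, Even (univ.filter (fun x : Ω => a.1 x = x)).card := by
  have hcA : ∀ a b : A, a * b = b * a := fun a b => Subtype.ext (hcomm a a.2 b b.2)
  have : Fintype A := Fintype.ofFinite _
  -- a stabiliser which occurs an odd number of times
  obtain ⟨M, hMim, hM⟩ : ∃ M ∈ univ.image (fun x : Ω => MulAction.stabilizer A x),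
      Odd (univ.filter (fun x : Ω => MulAction.stabilizer A x = M)).card := by
    have h1 := Finset.card_eq_sum_card_image (fun x : Ω => MulAction.stabilizer A x)
      (univ : Finset Ω)
    rw [card_univ] at h1
    rw [h1, Finset.odd_sum_iff_odd_card_odd] at hn
    obtain ⟨M, hM⟩ := Finset.card_pos.1 (Nat.pos_of_ne_zero fun h => by
      rw [h] at hn
      exact absurd hn (by decide))
    rw [mem_filter] at hM
    exact ⟨M, hM.1, hM.2⟩
  rw [mem_image] at hMim
  obtain ⟨x0, -, hx0⟩ := hMim
  have hMi : M.index = q := by rw [← hx0]; exact hidx x0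
  have hMt : M ≠ ⊤ := by
    intro h
    rw [h, Subgroup.index_top] at hMi
    exact hq.one_lt.ne hMi
  obtain ⟨a0, ha0⟩ : ∃ a0 : A, a0 ∉ M := by
    by_contra hcon
    push Not at hcon
    exact hMt ((Subgroup.eq_top_iff' M).2 hcon)
  -- the coset
  set S : Finset A := univ.filter (fun a => a0⁻¹ * a ∈ M) with hS
  have hScard : Odd S.card := by
    have h1 : S.card = Nat.card M := by
      rw [Nat.card_eq_fintype_card, ← Fintype.card_coe S]
      refine Fintype.card_congr ⟨fun a => ⟨a0⁻¹ * a.1, (mem_filter.1 a.2).2⟩,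
        fun m => ⟨a0 * m.1, mem_filter.2 ⟨mem_univ _, by simp⟩⟩, ?_, ?_⟩
      · intro a
        apply Subtype.ext
        simp
      · intro m
        apply Subtype.ext
        simp
    rw [h1]
    exact hodd.of_dvd_nat (Subgroup.card_subgroup_dvd_card M)
  have hpar : ∀ x : Ω, Odd (S.filter (fun a => a.1 x = x)).card ↔
      MulAction.stabilizer A x ≠ M := by
    intro x
    constructor
    · rintro h1 h2
      obtain ⟨a, ha⟩ := Finset.card_pos.1 (Nat.pos_of_ne_zero fun h => by
        rw [h] at h1
        exact absurd h1 (by decide))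
      rw [mem_filter, hS, mem_filter] at ha
      have h3 : a ∈ M := by
        rw [← h2, MulAction.mem_stabilizer_iff]
        exact ha.2
      apply ha0
      have h4 := M.mul_mem h3 (M.inv_mem ha.1.2)
      rw [mul_inv_rev, inv_inv, ← mul_assoc, mul_inv_cancel, one_mul] at h4
      exact h4
    · intro h1
      set N := MulAction.stabilizer A x with hN
      have hNi : N.index = q := hidx x
      have hsup : M ⊔ N = ⊤ := by
        have h2 : (M ⊔ N).index ∣ q := by
          rw [← hMi]
          exact Subgroup.index_dvd_of_le le_sup_left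
        rcases (Nat.dvd_prime hq).1 h2 with h3 | h3
        · exact Subgroup.index_eq_one.1 h3
        · exfalso
          apply h1
          have e1 : M = M ⊔ N := by
            apply Subgroup.eq_of_le_of_card_ge le_sup_left
            have c1 := Subgroup.card_mul_index M
            have c2 := Subgroup.card_mul_index (M ⊔ N)
            rw [hMi] at c1
            rw [h3, ← c1] at c2
            exact (Nat.eq_of_mul_eq_mul_right hq.pos c2).le
          have e2 : N = M ⊔ N := by
            apply Subgroup.eq_of_le_of_card_ge le_sup_right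
            have c1 := Subgroup.card_mul_index N
            have c2 := Subgroup.card_mul_index (M ⊔ N)
            rw [hNi] at c1
            rw [h3, ← c1] at c2
            exact (Nat.eq_of_mul_eq_mul_right hq.pos c2).le
          rw [e2, ← e1]
      have hMn : M.Normal := ⟨fun m hm g => by rwa [hcA g m, mul_inv_cancel_right]⟩
      obtain ⟨m, hm, b, hb, hmb⟩ : ∃ m ∈ M, ∃ b ∈ N, m * b = a0 := by
        have h2 : a0 ∈ M ⊔ N := by rw [hsup]; trivial
        rw [← SetLike.mem_coe, Subgroup.normal_mul, Set.mem_mul] at h2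
        obtain ⟨m, hm, b, hb, hmb⟩ := h2
        exact ⟨m, hm, b, hb, hmb⟩
      have hbS : a0⁻¹ * b ∈ M := by
        have : a0⁻¹ * b = m⁻¹ := by
          rw [← hmb, mul_inv_rev, hcA b⁻¹ m⁻¹, mul_assoc, inv_mul_cancel, mul_one]
        rw [this]
        exact M.inv_mem hm
      have h2 : (S.filter (fun a => a.1 x = x)).card = Nat.card (M ⊓ N : Subgroup A) := by
        rw [Nat.card_eq_fintype_card, ← Fintype.card_coe (S.filter (fun a => a.1 x = x))]
        refine Fintype.card_congr ⟨fun a => ⟨b⁻¹ * a.1, ?_⟩, fun m => ⟨b * m.1, ?_⟩, ?_, ?_⟩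
        · have h3 := mem_filter.1 a.2
          have h4 := mem_filter.1 h3.1
          refine ⟨?_, ?_⟩
          · have h5 := M.mul_mem (M.inv_mem hbS) h4.2
            rw [mul_inv_rev, inv_inv, mul_assoc, mul_inv_cancel_left] at h5
            exact h5
          · exact N.mul_mem (N.inv_mem hb) (MulAction.mem_stabilizer_iff.2 h3.2)
        · rw [mem_filter, hS, mem_filter]
          refine ⟨⟨mem_univ _, ?_⟩, ?_⟩
          · rw [← mul_assoc]
            exact M.mul_mem hbS m.2.1
          · exact MulAction.mem_stabilizer_iff.1 (N.mul_mem hb m.2.2)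
        · intro a
          apply Subtype.ext
          simp
        · intro m
          apply Subtype.ext
          simp
      rw [h2]
      exact hodd.of_dvd_nat (Subgroup.card_subgroup_dvd_card _)
  have hev : Even (∑ x : Ω, (S.filter (fun a => a.1 x = x)).card) := by
    rw [Finset.even_sum_iff_even_card_odd]
    have h1 : (univ.filter (fun x : Ω => Odd (S.filter (fun a => a.1 x = x)).card)) =
        univ.filter (fun x : Ω => ¬ MulAction.stabilizer A x = M) :=
      filter_congr fun x _ => hpar x
    rw [h1]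
    have h2 := card_filter_add_card_filter_not (s := (univ : Finset Ω))
      (fun x => MulAction.stabilizer A x = M)
    rw [card_univ] at h2
    rw [← h2] at hn
    exact (Nat.odd_add.1 hn).1 hM
  have hdc : ∑ x : Ω, (S.filter (fun a => a.1 x = x)).card =
      ∑ a ∈ S, (univ.filter (fun x : Ω => a.1 x = x)).card := by
    simp only [card_filter]
    exact Finset.sum_comm
  rw [hdc, Finset.even_sum_iff_even_card_odd] at hev
  by_contra hcon
  push Not at hcon
  have h1 : S.filter (fun a => Odd (univ.filter (fun x : Ω => a.1 x = x)).card) = S := by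
    apply filter_true_of_mem
    intro a _
    exact Nat.not_even_iff_odd.1 (hcon a)
  rw [h1] at hev
  exact (Nat.not_even_iff_odd.2 hScard) hev

/-- the orbits of a normal subgroup of a transitive group have the same size -/
theorem orbit_card {Ω : Type} [Fintype Ω] (H A : Subgroup (Equiv.Perm Ω))
    (hn : ∀ s ∈ H, ∀ a ∈ A, s * a * s⁻¹ ∈ A) (htr : ∀ x y, ∃ s ∈ H, s x = y) (x y : Ω) :
    (univ.filter (fun z => ∃ a ∈ A, a x = z)).card =
      (univ.filter (fun z => ∃ a ∈ A, a y = z)).card := by
  have key : ∀ x y : Ω, (univ.filter (fun z => ∃ a ∈ A, a x = z)).card ≤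
      (univ.filter (fun z => ∃ a ∈ A, a y = z)).card := by
    intro x y
    obtain ⟨s, hs, rfl⟩ := htr x y
    refine card_le_card_of_injOn s ?_ s.injective.injOn
    intro z hz
    rw [mem_coe, mem_filter] at hz ⊢
    obtain ⟨-, a, ha, rfl⟩ := hz
    refine ⟨mem_univ _, s * a * s⁻¹, hn s hs a ha, ?_⟩
    rw [Equiv.Perm.mul_apply, Equiv.Perm.mul_apply]
    congr 2
    exact s.symm_apply_apply x
  exact le_antisymm (key x y) (key y x)

theorem filter_orbit {Ω : Type} [Fintype Ω] (A : Subgroup (Equiv.Perm Ω)) (x : Ω) :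
    (univ.filter (fun z => ∃ a ∈ A, a x = z)).card = (MulAction.orbit A x).ncard := by
  rw [← Set.ncard_coe_finset]
  congr 1
  ext z
  rw [mem_coe, mem_filter, MulAction.mem_orbit_iff]
  constructor
  · rintro ⟨-, a, ha, h⟩
    exact ⟨⟨a, ha⟩, h⟩
  · rintro ⟨a, h⟩
    exact ⟨mem_univ _, a.1, a.2, h⟩

/-- the fixed points in a fixed block -/
theorem fiber_odd {Ω Ω' : Type} [Fintype Ω] (A : Subgroup (Equiv.Perm Ω)) (g : Equiv.Perm Ω)
    (hnorm : ∀ a ∈ A, g * a * g⁻¹ ∈ A) (hcomm : ∀ a ∈ A, ∀ b ∈ A, a * b = b * a)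
    (hAodd : Odd (Nat.card A)) {q i : ℕ} (hq : q.Prime) (hg : g ^ q ^ i = 1) (π : Ω → Ω')
    (hrel : ∀ x y, π x = π y ↔ ∃ a ∈ A, a x = y) (x1 : Ω)
    (hfix : ∀ x, π (g x) = π x1 ↔ π x = π x1)
    (hc : ¬ q ∣ (univ.filter (fun z => π z = π x1)).card) :
    Odd ((univ.filter (fun x : Ω => g x = x)).filter (fun x => π x = π x1)).card := by
  have hfq : Fact q.Prime := ⟨hq⟩
  -- a fixed point
  obtain ⟨x2, hx2, hgx2⟩ : ∃ x2, π x2 = π x1 ∧ g x2 = x2 := by
    by_contra hcon
    push Not at hcon
    set σ : Equiv.Perm {z // π z = π x1} := g.subtypePerm (p := fun z => π z = π x1)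
      (fun x => hfix x) with hσ
    have h1 : σ ^ q ^ i = 1 := by
      rw [hσ, Equiv.Perm.subtypePerm_pow]
      ext z
      simp [hg]
    have h2 := Equiv.Perm.card_compl_support_modEq (α := {z // π z = π x1}) h1
    have h3 : σ.supportᶜ = ∅ := by
      rw [Finset.compl_eq_empty_iff, Finset.eq_univ_iff_forall]
      intro z
      rw [Equiv.Perm.mem_support]
      intro h4
      exact hcon z.1 z.2 (congrArg Subtype.val h4)
    rw [h3, Finset.card_empty, Fintype.card_subtype] at h2
    exact hc ((Nat.modEq_zero_iff_dvd).1 h2.symm)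
  have hginv : g⁻¹ x2 = x2 := by
    rw [Equiv.Perm.inv_eq_iff_eq]
    exact hgx2.symm
  have hga : ∀ a : Equiv.Perm Ω, (g * a * g⁻¹) x2 = g (a x2) := by
    intro a
    rw [Equiv.Perm.mul_apply, Equiv.Perm.mul_apply, hginv]
  let D : Subgroup (Equiv.Perm Ω) := {
    carrier := {a | a ∈ A ∧ g (a x2) = a x2}
    one_mem' := ⟨A.one_mem, by simpa using hgx2⟩
    mul_mem' := by
      rintro a b ⟨ha, ha1⟩ ⟨hb, hb1⟩
      refine ⟨A.mul_mem ha hb, ?_⟩
      have e1 : g ((a * b) x2) = ((g * a * g⁻¹) * b) x2 := by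
        rw [Equiv.Perm.mul_apply, Equiv.Perm.mul_apply, Equiv.Perm.mul_apply,
          Equiv.Perm.mul_apply, ← hb1]
        congr 2
        rw [Equiv.Perm.inv_eq_iff_eq.2 rfl, hb1]
      rw [e1, hcomm _ (hnorm a ha) b hb, Equiv.Perm.mul_apply, hga, ha1, hcomm a ha b hb]
      rfl
    inv_mem' := by
      rintro a ⟨ha, ha1⟩
      refine ⟨A.inv_mem ha, ?_⟩
      have e1 : (g * a * g⁻¹) x2 = a x2 := by rw [hga, ha1]
      have e2 := hcomm _ (hnorm a ha) _ (A.inv_mem ha)
      have e3 : (g * a⁻¹ * g⁻¹) x2 = a⁻¹ x2 := by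
        have e4 : (g * a⁻¹ * g⁻¹) = (g * a * g⁻¹)⁻¹ := by group
        rw [e4, Equiv.Perm.inv_eq_iff_eq, ← Equiv.Perm.mul_apply, e2, Equiv.Perm.mul_apply, e1]
        exact (Equiv.symm_apply_apply a x2).symm
      rw [← hga, e3] }
  have hD : Odd (Nat.card D) := by
    have h1 : D ≤ A := fun a ha => ha.1
    exact hAodd.of_dvd_nat (Subgroup.card_dvd_of_le h1)
  have h1 := orbit_odd D hD x2
  rw [← filter_orbit] at h1
  convert h1 using 2
  ext x
  rw [mem_filter, mem_filter, mem_filter]
  constructor
  · rintro ⟨⟨-, hx⟩, hx'⟩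
    obtain ⟨a, ha, rfl⟩ := (hrel x2 x).1 (hx2.trans hx'.symm)
    exact ⟨mem_univ _, a, ⟨ha, hx⟩, rfl⟩
  · rintro ⟨-, a, ha, rfl⟩
    exact ⟨⟨mem_univ _, ha.2⟩, ((hrel x2 (a x2)).2 ⟨a, ha.1, rfl⟩).symm.trans hx2⟩

/-- A solvable transitive group of odd degree contains, for every prime `q` which divides the
degree exactly, an element of order a power of `q` with an even number of fixed points. -/
theorem even_of_solvable : ∀ (n : ℕ) (Ω : Type) [Fintype Ω] (H : Subgroup (Equiv.Perm Ω))
    [Group.IsSolvable H] (q : ℕ), Fintype.card Ω = n → (∀ x y, ∃ s ∈ H, s x = y) → Odd n →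
    q.Prime → q ∣ n → ¬ q ^ 2 ∣ n →
    ∃ s ∈ H, ∃ j : ℕ, s ^ q ^ j = 1 ∧ Even (univ.filter (fun x => s x = x)).card := by
  intro n
  induction n using Nat.strong_induction_on with
  | _ n ih =>
    intro Ω _ H hsol q hn htr hodd hq hqn hqn2
    have h1 : 1 < Fintype.card Ω := by
      rw [hn]
      exact hq.one_lt.trans_le (Nat.le_of_dvd hodd.pos hqn)
    have hne : H ≠ ⊥ := by
      rintro rfl
      obtain ⟨x, y, hxy⟩ := Fintype.exists_pair_of_one_lt_card h1
      obtain ⟨s, hs, h2⟩ := htr x y
      rw [Subgroup.mem_bot] at hs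
      rw [hs] at h2
      exact hxy h2
    obtain ⟨A, l, hl, hAH, hA, hnorm, hcomm, hpow⟩ := exists_elementary H hne
    obtain ⟨e, he⟩ := card_elementary A hl hpow
    obtain ⟨Ω', _, π, θ, hπ, hrel, hcard, hθ⟩ := quot H A hnorm hA
    obtain ⟨x0⟩ : Nonempty Ω := Fintype.card_pos_iff.1 (by omega)
    -- the size of the orbits
    set c := (univ.filter (fun z => ∃ a ∈ A, a x0 = z)).card with hc
    have hfib : ∀ x, (univ.filter (fun z => π z = π x)).card = c := by
      intro x
      rw [hc, ← orbit_card H A hnorm htr x x0]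
      congr 1
      apply filter_congr
      intro z _
      rw [eq_comm]
      exact hrel x z
    have hcn : n = c * Fintype.card Ω' := by
      have h2 := Finset.card_eq_sum_card_fiberwise (s := (univ : Finset Ω))
        (t := (univ : Finset Ω')) (f := π) (fun x _ => mem_coe.2 (mem_univ _))
      rw [card_univ, hn] at h2
      rw [h2, Finset.sum_congr rfl (g := fun _ => c), sum_const, card_univ, smul_eq_mul, mul_comm]
      intro b _
      obtain ⟨x, rfl⟩ := hπ b
      exact hfib x
    have hcl : ∃ t, c = l ^ t := by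
      have h2 : c ∣ l ^ e := by
        rw [hc, filter_orbit, ← MulAction.index_stabilizer, ← he]
        exact Subgroup.index_dvd_card _
      obtain ⟨t, -, ht⟩ := (Nat.dvd_prime_pow hl).1 h2
      exact ⟨t, ht⟩
    obtain ⟨t, ht⟩ := hcl
    have ht0 : t ≠ 0 := by
      rintro rfl
      rw [pow_zero] at ht
      rw [ht, one_mul] at hcn
      omega
    have hodds := hodd
    rw [hcn, Nat.odd_mul] at hodds
    have hlodd : Odd l := by
      have := hodds.1
      rw [ht] at this
      exact (Nat.odd_pow_iff ht0).1 this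
    have hAodd : Odd (Nat.card A) := by
      rw [he]
      exact hlodd.pow
    by_cases hlq : l = q
    · -- the orbits have `q` elements
      have ht1 : t = 1 := by
        by_contra hcon
        apply hqn2
        rw [hcn, ht, hlq]
        exact Dvd.dvd.mul_right (pow_dvd_pow q (by omega)) _
      rw [ht1, pow_one, hlq] at ht
      obtain ⟨a, ha⟩ := coset_even A hq hcomm hAodd (by rw [hn]; exact hodd) (fun x => by
        rw [MulAction.index_stabilizer, ← filter_orbit, orbit_card H A hnorm htr x x0]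
        exact ht)
      refine ⟨a.1, hAH a.2, 1, ?_, ha⟩
      rw [pow_one, ← hlq]
      exact hpow a.1 a.2
    · -- the quotient
      have := range_solvable θ
      have hql : Nat.Coprime q l := (Nat.coprime_primes hq hl).2 (fun h => hlq h.symm)
      have hqc : Nat.Coprime q c := by rw [ht]; exact Nat.Coprime.pow_right t hql
      have hq2c : Nat.Coprime (q ^ 2) c := Nat.Coprime.pow_left 2 hqc
      obtain ⟨s', ⟨s0, rfl⟩, j, hpow', heven⟩ := ih _ (by rw [← hn]; exact hcard) Ω' θ.range q
        rfl (by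
          intro b d
          obtain ⟨x, rfl⟩ := hπ b
          obtain ⟨y, rfl⟩ := hπ d
          obtain ⟨s, hs, h2⟩ := htr x y
          exact ⟨θ ⟨s, hs⟩, ⟨_, rfl⟩, by rw [hθ, h2]⟩) hodds.2 hq
        (by rw [hcn] at hqn; exact hqc.dvd_of_dvd_mul_left hqn)
        (fun h => hqn2 (by rw [hcn]; exact Dvd.dvd.mul_left h _))
      obtain ⟨g, i, hg1, hg2⟩ := lift_pow θ hq s0 hpow'
      have hgp : g.1 ^ q ^ i = 1 := by exact_mod_cast congrArg Subtype.val hg1
      refine ⟨g.1, g.2, i, hgp, ?_⟩
      rw [← hg2] at heven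
      -- the fixed points by blocks
      have h2 := Finset.card_eq_sum_card_fiberwise
        (s := univ.filter (fun x : Ω => g.1 x = x))
        (t := (univ : Finset Ω')) (f := π) (fun x _ => mem_coe.2 (mem_univ _))
      rw [h2, Finset.even_sum_iff_even_card_odd]
      have h4 : (univ.filter (fun b : Ω' => Odd ((univ.filter (fun x : Ω => g.1 x = x)).filter
          (fun x => π x = b)).card)) = univ.filter (fun b : Ω' => θ g b = b) := by
        apply filter_congr
        intro b _
        obtain ⟨x1, rfl⟩ := hπ b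
        constructor
        · intro h3
          obtain ⟨y, hy⟩ := Finset.card_pos.1 h3.pos
          rw [mem_filter, mem_filter] at hy
          rw [← hy.2, hθ, hy.1.2]
        · intro h3
          exact fiber_odd A g.1 (hnorm g.1 g.2) hcomm hAodd hq hgp π hrel x1
            (fun x => by
              constructor
              · intro h5
                have h6 : θ g (π x) = θ g (π x1) := by rw [hθ, h5, h3]
                exact (θ g).injective h6
              · intro h5
                rw [← hθ, h5, h3])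
            (by
              rw [hfib x1]
              exact fun h5 => hq.one_lt.ne' (Nat.dvd_one.1 (by
                have := Nat.dvd_gcd (dvd_refl q) h5
                rwa [hqc] at this)))
      rw [h4]
      exact heven

end Pool.Agent.H73.TK
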