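import Mathlib
import Pool.Agent.H73.TK.Rep
import Pool.Agent.H73.TK.Grp
import Pool.Agent.H73.TR.Fin
import Pool.Agent.H24.KS.Incl
import Pool.Agent.H24.KS.Low

/-!
Designs with solvable point-transitive groups, and the lower bound (Paley designs).
-/

namespace Pool.Agent.H73.TK

open Finset Classical Filter
open Pool.Agent.H96.Sing Pool.Agent.H24.AN Pool.Agent.H73.TR
open Pool.Agent.H24.KS (richOrders)

lemma richPow_finite (X : ℕ) : (richPowOrders X).Finite :=
  (Set.finite_Iic X).subset fun _ hv => hv.1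

lemma rich_sub (X : ℕ) : richOrders X ⊆ richPowOrders X := by
  rintro v ⟨hX, k, l, B, hk, hkv, hd, h⟩
  refine ⟨hX, k, l, B, hk, hkv, hd, fun q hq hq2 hqv _ => ?_⟩
  obtain ⟨s, hs, hord, hev⟩ := h q hq hq2 hqv
  exact ⟨s, 1, hs, by rw [pow_one]; exact hord, hev⟩

/-- the orders of designs with a solvable point-transitive group -/
theorem solvable_rich (X : ℕ) : solvableTransitiveOrders X ⊆ richPowOrders X := by
  rintro v ⟨hX, k, l, B, hk, hkv, hd, H, hH, htr, hsol⟩
  refine ⟨hX, k, l, B, hk, hkv, hd, fun q hq hq2 hqv hqv2 => ?_⟩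
  rcases Nat.even_or_odd v with hv | hv
  · refine ⟨1, 0, ⟨1, fun j x => Iff.rfl⟩, by rw [orderOf_one, pow_zero], ?_⟩
    have : univ.filter (fun x : Fin v => (1 : Equiv.Perm (Fin v)) x = x) = univ := by
      apply filter_true_of_mem
      intro x _
      rfl
    rw [this, card_univ, Fintype.card_fin]
    exact hv
  · obtain ⟨s, hs, j, hpow, hev⟩ := even_of_solvable v (Fin v) H q (Fintype.card_fin v) htr hv hq
      hqv hqv2
    obtain ⟨i, -, hord⟩ := (Nat.dvd_prime_pow hq).1 (orderOf_dvd_of_pow_eq_one hpow)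
    refine ⟨s, i, hH s hs, hord, ?_⟩
    convert hev

lemma ds_richPow (X : ℕ) : differenceSetOrders X ⊆ richPowOrders X :=
  (Pool.Agent.H24.KS.ds_rich X).trans (rich_sub X)

lemma tr_richPow (X : ℕ) : transitiveOrders X ⊆ richPowOrders X :=
  (Pool.Agent.H24.KS.tr_rich X).trans (rich_sub X)

lemma free_evenPow (X : ℕ) : freeOrders X ⊆ evenPowOrders X := by
  rintro v ⟨hX, k, l, B, hk, hkv, hd, s, hs, hord, hfree⟩
  exact mem_of_free hX hk hkv hd s hs hord (j := 1)
    (by rw [pow_one]; exact pow_orderOf_eq_one s) hfree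

/-- the design of a difference set with its regular group of automorphisms -/
theorem design_group (G : Type) [Group G] [Finite G] (D : Finset G) (l : ℕ)
    (hD : IsDifferenceSet G D l) (hlt : D.card < Nat.card G) :
    ∃ B : Fin (Nat.card G) → Finset (Fin (Nat.card G)),
      IsSymmetricDesign (Nat.card G) D.card l B ∧
      ∃ θ : G →* Equiv.Perm (Fin (Nat.card G)), (∀ g, IsAut B (θ g)) ∧ ∀ x y, ∃ g, θ g x = y := by
  have : Fintype G := Fintype.ofFinite G
  let e : G ≃ Fin (Nat.card G) := Finite.equivFin G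
  let B : Fin (Nat.card G) → Finset (Fin (Nat.card G)) :=
    fun j => univ.filter (fun x => e.symm x * (e.symm j)⁻¹ ∈ D)
  have hB : ∀ j x, x ∈ B j ↔ e.symm x * (e.symm j)⁻¹ ∈ D := by
    intro j x; simp [B]
  refine ⟨B, ⟨hlt, D.card, fun j => ?_, fun x => ?_, fun x y hxy => ?_⟩, ?_⟩
  · refine card_bij' (fun x _ => e.symm x * (e.symm j)⁻¹) (fun d _ => e (d * e.symm j)) ?_ ?_ ?_ ?_
    · intro x hx; exact (hB j x).mp hx
    · intro d hd; rw [hB]; simpa using hd
    · intro x _; simp
    · intro d _; simp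
  · refine card_bij' (fun j _ => e.symm x * (e.symm j)⁻¹) (fun d _ => e (d⁻¹ * e.symm x)) ?_ ?_ ?_ ?_
    · intro j hj
      rw [mem_filter] at hj
      exact (hB j x).mp hj.2
    · intro d hd
      rw [mem_filter]
      refine ⟨mem_univ _, ?_⟩
      rw [hB]; simpa using hd
    · intro j _; simp
    · intro d _; simp
  · have hg : e.symm x * (e.symm y)⁻¹ ≠ 1 := by
      intro h
      exact hxy (e.symm.injective (mul_inv_eq_one.mp h))
    rw [← hD _ hg, ← Set.ncard_coe_finset]
    refine Set.ncard_congr (fun j _ => (e.symm x * (e.symm j)⁻¹, e.symm y * (e.symm j)⁻¹)) ?_ ?_ ?_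
    · intro j hj
      rw [mem_coe, mem_filter] at hj
      refine ⟨(hB j x).mp hj.2.1, (hB j y).mp hj.2.2, ?_⟩
      simp
    · intro i j _ _ h
      simp only [Prod.mk.injEq, mul_right_inj, inv_inj] at h
      exact e.symm.injective h.1
    · rintro ⟨a, b⟩ ⟨ha, hb, hab⟩
      simp only at ha hb hab
      have h1 : a⁻¹ * e.symm x = b⁻¹ * e.symm y := by
        have h2 : a * b⁻¹ * e.symm y = e.symm x := by rw [hab]; simp
        rw [← h2]; group
      refine ⟨e (a⁻¹ * e.symm x), ?_, ?_⟩
      · rw [mem_coe, mem_filter]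
        refine ⟨mem_univ _, ?_, ?_⟩
        · rw [hB]; simpa using ha
        · rw [hB, h1]; simpa using hb
      · simp only [Equiv.symm_apply_apply, Prod.mk.injEq]
        refine ⟨by simp, ?_⟩
        rw [h1]; simp
  · have hact : ∀ g h : G, (e.symm.trans ((Equiv.mulRight (g * h)⁻¹).trans e) :
        Equiv.Perm (Fin (Nat.card G))) =
        (e.symm.trans ((Equiv.mulRight g⁻¹).trans e)) * (e.symm.trans ((Equiv.mulRight h⁻¹).trans e)) := by
      intro g h
      ext x
      simp [Equiv.Perm.mul_apply, mul_assoc]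
    let θ : G →* Equiv.Perm (Fin (Nat.card G)) := {
      toFun := fun g => e.symm.trans ((Equiv.mulRight g⁻¹).trans e)
      map_one' := by
        ext x
        simp
      map_mul' := hact }
    have hθ : ∀ g x, θ g x = e (e.symm x * g⁻¹) := fun g x => rfl
    refine ⟨θ, fun g => ⟨θ g, fun j x => ?_⟩, fun x y => ⟨(e.symm y)⁻¹ * e.symm x, ?_⟩⟩
    · rw [hB, hB, hθ, hθ]
      simp
    · rw [hθ]
      simp

/-- difference sets in solvable groups -/
theorem ds_solvable (G : Type) [Group G] [Finite G] [Group.IsSolvable G] (D : Finset G) (l : ℕ)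
    (hD : IsDifferenceSet G D l) (h1 : 1 < D.card) (h2 : D.card + 1 < Nat.card G) (X : ℕ)
    (hX : Nat.card G ≤ X) : Nat.card G ∈ solvableTransitiveOrders X := by
  obtain ⟨B, hB, θ, hθ, htr⟩ := design_group G D l hD (by omega)
  refine ⟨hX, D.card, l, B, h1, h2, hB, θ.range, ?_, ?_, range_solvable θ⟩
  · rintro s ⟨g, rfl⟩
    exact hθ g
  · intro x y
    obtain ⟨g, hg⟩ := htr x y
    exact ⟨θ g, ⟨g, rfl⟩, hg⟩

lemma paley_solvable (w : ℕ) (hw : 2 ≤ w) (hp : (4 * w - 1).Prime) (X : ℕ) (hX : 4 * w - 1 ≤ X) :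
    4 * w - 1 ∈ solvableTransitiveOrders X := by
  obtain ⟨-, G, hG, D, l, hcard, h1, h2, hD⟩ :=
    Pool.Agent.H24.KS.low_paley_mem w hw hp (4 * w - 1) le_rfl
  have hfin : Finite G := by
    apply Nat.finite_of_card_ne_zero
    omega
  have hfp : Fact (4 * w - 1).Prime := ⟨hp⟩
  have hcyc : IsCyclic G := isCyclic_of_prime_card hcard
  have hsolG : Group.IsSolvable G := by
    obtain ⟨g, hg⟩ := hcyc.exists_generator
    apply Group.isSolvable_of_comm
    intro a b
    obtain ⟨m, rfl⟩ := Subgroup.mem_zpowers_iff.1 (hg a)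
    obtain ⟨n, rfl⟩ := Subgroup.mem_zpowers_iff.1 (hg b)
    rw [← zpow_add, ← zpow_add, add_comm]
  rw [← hcard]
  exact ds_solvable G D l hD h1 (by omega) X (by omega)

/-- the lower bound -/
theorem lower_solvable : ∃ (c : ℝ) (X0 : ℕ), 0 < c ∧ ∀ X : ℕ, X0 ≤ X →
    c * X / Real.log X ≤ ((solvableTransitiveOrders X).ncard : ℝ) := by
  obtain ⟨c, hc, hev⟩ := Pool.Agent.H49.Gol.primes_lower
  obtain ⟨W0, hW0⟩ := eventually_atTop.mp hev
  have hlog : ∀ᶠ X : ℕ in atTop, 1 ≤ c / 16 * X / Real.log X := by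
    have h1 : Tendsto (fun x : ℝ => Real.log x / x) atTop (nhds 0) := by
      have := Real.isLittleO_log_id_atTop.tendsto_div_nhds_zero
      simpa using this
    have h2 : Tendsto (fun n : ℕ => Real.log (n:ℝ) / (n:ℝ)) atTop (nhds 0) :=
      h1.comp tendsto_natCast_atTop_atTop
    have h3 := h2.eventually (gt_mem_nhds (show (0:ℝ) < c / 16 by positivity))
    filter_upwards [h3, eventually_ge_atTop 3] with X hX hX3
    have hX0 : (0:ℝ) < X := by exact_mod_cast (by omega : 0 < X)
    have hl : 0 < Real.log X := Real.log_pos (by exact_mod_cast (by omega : 1 < X))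
    rw [div_lt_iff₀ hX0] at hX
    rw [le_div_iff₀ hl]
    linarith
  obtain ⟨X1, hX1⟩ := eventually_atTop.mp hlog
  refine ⟨c / 16, max (4 * W0 + 8) (max X1 8), by positivity, ?_⟩
  intro X hX
  have hXa : 4 * W0 + 8 ≤ X := le_trans (le_max_left _ _) hX
  have hXb : X1 ≤ X := le_trans ((le_max_left _ _).trans (le_max_right _ _)) hX
  set W := (X + 1) / 4 with hW
  have hWW : W0 ≤ W := by omega
  have h1 := hW0 W hWW
  have h2 := hX1 X hXb
  have hfin : (solvableTransitiveOrders X).Finite := (Set.finite_Iic X).subset fun v hv => hv.1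
  have h3 : ((Icc 1 W).filter (fun w => (4 * w - 1).Prime)).card ≤
      (solvableTransitiveOrders X).ncard + 1 := by
    have h4 : (((Icc 1 W).filter (fun w => (4 * w - 1).Prime)).erase 1).card ≤
        (solvableTransitiveOrders X).ncard := by
      rw [← Set.ncard_coe_finset]
      refine Set.ncard_le_ncard_of_injOn (fun w => 4 * w - 1) ?_ ?_ hfin
      · intro w hw
        rw [mem_coe, mem_erase, mem_filter, mem_Icc] at hw
        exact paley_solvable w (by omega) hw.2.2 X (by omega)
      · intro w hw w' hw' h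
        rw [mem_coe, mem_erase, mem_filter, mem_Icc] at hw hw'
        simp only at h
        omega
    have h5 := pred_card_le_card_erase (s := (Icc 1 W).filter (fun w => (4 * w - 1).Prime)) (a := 1)
    omega
  have h3' : (((Icc 1 W).filter (fun w => (4 * w - 1).Prime)).card : ℝ) ≤
      ((solvableTransitiveOrders X).ncard : ℝ) + 1 := by exact_mod_cast h3
  have hX8 : 8 ≤ X := by omega
  have hWX : (X:ℝ) / 8 ≤ W := by
    have : X ≤ 8 * W := by omega
    have h' : (X:ℝ) ≤ 8 * W := by exact_mod_cast this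
    linarith
  have hWle : (W:ℝ) ≤ X := by exact_mod_cast (by omega : W ≤ X)
  have hW2 : (2:ℝ) ≤ W := by exact_mod_cast (by omega : 2 ≤ W)
  have hlW : 0 < Real.log W := Real.log_pos (by linarith)
  have hlX : 0 < Real.log X := Real.log_pos (by linarith)
  have hll : Real.log W ≤ Real.log X := Real.log_le_log (by linarith) hWle
  have h6 : c * (X / 8) / Real.log X ≤ c * W / Real.log W := by
    apply div_le_div₀ (by positivity) _ hlW hll
    exact mul_le_mul_of_nonneg_left hWX hc.le
  have h7 : c * (X / 8) / Real.log X = c / 16 * X / Real.log X + c / 16 * X / Real.log X := by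
    ring
  linarith

end Pool.Agent.H73.TK
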