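import Mathlib
import Pool.Agent.H73.TK.Logic
import Pool.Agent.H24.KS.L0

/-!
Zone L, no small prime of odd exponent.
-/

namespace Pool.Agent.H73.TK

open Finset Classical
open Pool.Agent.H95.Gol
open Pool.Agent.H24.KS

/-- the sieve events for `OL = ∅` -/
lemma l0_ev {X K a b z x : ℕ} (h : Tr X a b z x) (hO : OL (K-10) a b z x = ∅) (s : ℤ)
    (P : Finset ℕ) (hP : ∀ l ∈ P, l.Prime ∧ l ≤ bb (K-10) ∧ ¬ l ∣ a) :
    QL a ∅ ∅ b z x ∧ EvL P a s (fun _ => False) (fun _ => True) b z x := by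
  refine ⟨⟨by simp, by simp⟩, ?_⟩
  intro l hl
  obtain ⟨hlp, hlb, hla⟩ := hP l hl
  refine ⟨fun h1 => h1.1, ?_⟩
  rintro ⟨h1, h2, _⟩
  have h3 : l ∈ OL (K-10) a b z x := by
    unfold OL
    rw [mem_filter, mem_range]
    exact ⟨by omega, hlp, hla, h1, odd_of_ex h hlp h2 h1⟩
  rw [hO] at h3
  exact absurd h3 (notMem_empty l)

theorem bL0 : ∃ C : ℝ, 0 < C ∧ ∀ K X : ℕ, 2000 ≤ K → bb (K+6) ≤ X → X < bb (K+7) →
    (cnt X (fun a b z x => CL0 K a b z x ∧ NSq K a) : ℝ) ≤ C * X / 2^K := by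
  obtain ⟨C1, hC1, h1⟩ := lgen
  obtain ⟨C2, hC2, h2⟩ := SW_lower
  obtain ⟨C3, hC3, h3⟩ := asum2 2
  refine ⟨C1 * C3 * (Real.exp (2 * C2) * 2^20) * 2^6, by positivity, ?_⟩
  intro K X hK hX6 hX7
  have hX0 : (0:ℝ) ≤ X := Nat.cast_nonneg _
  -- the bound for one `a`
  have hone : ∀ a ∈ Ico (bb K) (bb (K+6)),
      ((Lz X a (fun b z x => Tr X a b z x ∧ (CL0 K a b z x ∧ NSq K a)) : ℕ) : ℝ) ≤
        (C1 * X * Real.exp (-(2 * SW 0 (K-10)))) *
          ((1:ℝ)/a * Real.exp ((2:ℕ) * ∑ l ∈ a.primeFactors, (1:ℝ)/l)) := by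
    intro a ha
    rw [mem_Ico] at ha
    have ha2 : 2 ≤ a := (two_le_bb K).trans ha.1
    have hpos : 0 ≤ (C1 * X * Real.exp (-(2 * SW 0 (K-10)))) *
          ((1:ℝ)/a * Real.exp ((2:ℕ) * ∑ l ∈ a.primeFactors, (1:ℝ)/l)) := by positivity
    by_cases hN : NSq K a
    swap
    · rw [l0_Lz_zero (fun b z x h => hN h.2.2)]
      simpa using hpos
    by_cases haX : a^2 < X
    swap
    · rw [l0_Lz_zero (fun b z x h => haX ?_)]
      · simpa using hpos
      · have e1 := h.1.1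
        have e2 := h.1.2.1
        calc a^2 = a * a := pow_two a
          _ ≤ a * b := Nat.mul_le_mul_left a e1
          _ < X := e2
    set P : Finset ℕ := (W 0 (K-10)).filter (fun l => ¬ l ∣ a) with hP
    have hPm : ∀ l ∈ P, l.Prime ∧ 2 < l ∧ l ≤ bb (K-10) ∧ ¬ l ∣ a := by
      intro l hl
      rw [hP, mem_filter] at hl
      have hb : bb 0 = 2 := rfl
      have := lt_of_mem_W hl.1
      exact ⟨prime_of_mem_W hl.1, by omega, le_of_mem_W hl.1, hl.2⟩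
    have hle : Lz X a (fun b z x => Tr X a b z x ∧ (CL0 K a b z x ∧ NSq K a)) ≤
        Lz X a (fun b z x => QL a ∅ ∅ b z x ∧
          EvL P a 1 (fun _ => False) (fun _ => True) b z x) := by
      apply Lz_mono
      rintro b z x _ _ ⟨hT, hC, _⟩
      exact l0_ev hT hC.2 1 P (fun l hl => ⟨(hPm l hl).1, (hPm l hl).2.2.1, (hPm l hl).2.2.2⟩)
    have hmain := h1 K X a 1 ∅ ∅ P (fun _ => False) (fun _ => True) hK ha.1 haX hN (by simp)
      (by simp) (by simp) (Or.inl rfl)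
      (fun l hl => ⟨(hPm l hl).1, (hPm l hl).2.1, (hPm l hl).2.2.1, (hPm l hl).2.2.2, by simp⟩)
    have hchi : ∑ l ∈ P, (chi False + 1 + chi True) / (l:ℝ) = ∑ l ∈ P, (2:ℝ) / l := by
      apply sum_congr rfl
      intro l _
      rw [chi_false (fun h => h), chi_true trivial]
      norm_num
    rw [hchi, union_empty, prod_empty, mul_one] at hmain
    refine le_trans (by exact_mod_cast hle) (hmain.trans ?_)
    have hs := l0_sum a (K-10) (by omega)
    have hexp : Real.exp (- ∑ l ∈ P, (2:ℝ) / l) ≤ Real.exp (-(2 * SW 0 (K-10))) *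
        Real.exp ((2:ℕ) * ∑ l ∈ a.primeFactors, (1:ℝ)/l) := by
      rw [← Real.exp_add]
      apply Real.exp_le_exp.mpr
      push_cast
      linarith
    calc C1 * ((X:ℝ) / a) * Real.exp (- ∑ l ∈ P, (2:ℝ) / l)
        ≤ C1 * ((X:ℝ) / a) * (Real.exp (-(2 * SW 0 (K-10))) *
        Real.exp ((2:ℕ) * ∑ l ∈ a.primeFactors, (1:ℝ)/l)) :=
          mul_le_mul_of_nonneg_left hexp (by positivity)
      _ = _ := by ring
  have hcnt := cnt_le_sumL X K (fun a b z x => CL0 K a b z x ∧ NSq K a) hX7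
    (fun _ _ _ _ _ h => h.1.1)
  have hstep1 : (cnt X (fun a b z x => CL0 K a b z x ∧ NSq K a) : ℝ) ≤
      ∑ a ∈ Ico (bb K) (bb (K+6)), (C1 * X * Real.exp (-(2 * SW 0 (K-10)))) *
          ((1:ℝ)/a * Real.exp ((2:ℕ) * ∑ l ∈ a.primeFactors, (1:ℝ)/l)) := by
    refine le_trans ?_ (sum_le_sum hone)
    exact_mod_cast hcnt
  rw [← mul_sum] at hstep1
  have hstep2 : ∑ a ∈ Ico (bb K) (bb (K+6)),
      ((1:ℝ)/a * Real.exp ((2:ℕ) * ∑ l ∈ a.primeFactors, (1:ℝ)/l)) ≤ C3 * 2^(K+6) := by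
    have e1 := h3 (bb (K+6)) (two_le_bb _)
    have e2 : ∑ a ∈ Ico (bb K) (bb (K+6)),
      ((1:ℝ)/a * Real.exp ((2:ℕ) * ∑ l ∈ a.primeFactors, (1:ℝ)/l)) ≤
        ∑ a ∈ Ico 1 (bb (K+6)),
      ((1:ℝ)/a * Real.exp ((2:ℕ) * ∑ l ∈ a.primeFactors, (1:ℝ)/l)) := by
      apply sum_le_sum_of_subset_of_nonneg
      · exact Ico_subset_Ico_left (bb_pos K)
      · intro a _ _
        positivity
    refine e2.trans (e1.trans ?_)
    exact mul_le_mul_of_nonneg_left (log_bb_le_two_pow (K+6)) hC3.le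
  have hstep3 : Real.exp (-(2 * SW 0 (K-10))) ≤ (Real.exp (2 * C2) * 2^20) / 2^(2*K) := by
    have e1 := h2 0 (K-10)
    have e2 : ((K - 10 : ℕ) : ℝ) = (K:ℝ) - 10 := by
      rw [Nat.cast_sub (by omega)]
      norm_num
    rw [e2, Nat.cast_zero, sub_zero] at e1
    have e3 : (2:ℝ)^20 = Real.exp (((20:ℕ):ℝ) * Real.log 2) := by
      rw [Real.exp_nat_mul, Real.exp_log (by norm_num)]
    have e4 : (2:ℝ)^(2*K) = Real.exp (((2*K:ℕ):ℝ) * Real.log 2) := by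
      rw [Real.exp_nat_mul, Real.exp_log (by norm_num)]
    rw [e3, e4, ← Real.exp_add, ← Real.exp_sub]
    apply Real.exp_le_exp.mpr
    push_cast
    linarith
  calc (cnt X (fun a b z x => CL0 K a b z x ∧ NSq K a) : ℝ)
      ≤ (C1 * X * Real.exp (-(2 * SW 0 (K-10)))) * (C3 * 2^(K+6)) :=
        hstep1.trans (mul_le_mul_of_nonneg_left hstep2 (by positivity))
    _ ≤ (C1 * X * ((Real.exp (2 * C2) * 2^20) / 2^(2*K))) * (C3 * 2^(K+6)) := by
        apply mul_le_mul_of_nonneg_right _ (by positivity)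
        exact mul_le_mul_of_nonneg_left hstep3 (by positivity)
    _ = C1 * C3 * (Real.exp (2 * C2) * 2^20) * 2^6 * X / 2^K := by
        have e1 : (2:ℝ)^(2*K) = 2^K * 2^K := by rw [two_mul, pow_add]
        rw [e1, pow_add]
        field_simp

end Pool.Agent.H73.TK
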