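import Mathlib
import Pool.Agent.H73.TK.Df
import Pool.Agent.H24.KS.Rough
import Pool.Agent.H24.KS.S3

/-!
The numbers without small prime which divides them exactly, and the numbers divisible by the square
of a large prime.
-/

namespace Pool.Agent.H73.TK

open Finset Classical
open Pool.Agent.H95.Gol
open Pool.Agent.H24.KS

lemma card_exact (p : ℕ) (hp : p.Prime) :
    ((range (p^2)).filter (fun j => p ∣ j ∧ ¬ p^2 ∣ j)).card = p - 1 := by
  have h1 : (range (p^2)).filter (fun j => p ∣ j ∧ ¬ p^2 ∣ j) =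
      (Ico 1 p).image (fun m => p * m) := by
    ext j
    rw [mem_filter, mem_range, mem_image]
    constructor
    · rintro ⟨h1, ⟨m, rfl⟩, h3⟩
      refine ⟨m, mem_Ico.mpr ⟨?_, ?_⟩, rfl⟩
      · by_contra hcon
        have : m = 0 := by omega
        subst this
        simp at h3
      · rw [pow_two] at h1
        exact lt_of_mul_lt_mul_left h1 (Nat.zero_le _)
    · rintro ⟨m, hm, rfl⟩
      rw [mem_Ico] at hm
      refine ⟨?_, ⟨m, rfl⟩, ?_⟩
      · rw [pow_two]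
        exact Nat.mul_lt_mul_of_pos_left hm.2 hp.pos
      · intro h
        rw [pow_two] at h
        have h2 := Nat.dvd_of_mul_dvd_mul_left hp.pos h
        have h3 := Nat.le_of_dvd (by omega) h2
        omega
  rw [h1, card_image_of_injective, Nat.card_Ico]
  intro a b h
  exact Nat.eq_of_mul_eq_mul_left hp.pos h

/-- The numbers without small odd prime which divides them exactly. -/
theorem bRough : ∃ C : ℝ, 0 < C ∧ ∀ K X : ℕ, 2000 ≤ K → bb (K+6) ≤ X → X < bb (K+7) →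
    (((range (X+1)).filter (fun v => ∀ p : ℕ, p.Prime → p ≠ 2 → p ≤ bb (K-10) →
      ¬ (p ∣ v ∧ ¬ p^2 ∣ v))).card : ℝ) ≤ C * X / 2^K := by
  obtain ⟨C, hC, hs⟩ := sieveD 1
  obtain ⟨C1, hC1, hSW⟩ := SW_zero_lower
  refine ⟨C * 2 * (Real.exp (C1 + 2) * 2^10), by positivity, ?_⟩
  intro K X hK hX _
  have hJ : (bb (K-10))^33 ≤ X + 1 := by
    have h1 : (bb (K-10))^33 ≤ (bb (K-10))^(2^6) :=
      Nat.pow_le_pow_right (bb_pos _) (by norm_num)
    have h2 : (bb (K-10))^(2^6) = bb (K - 10 + 6) := (bb_add _ _).symm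
    have h3 : bb (K - 10 + 6) ≤ bb (K+6) := bb_mono (by omega)
    omega
  have hb2 : 2 ≤ bb 0 := two_le_bb 0
  have hb02 : bb 0 = 2 := rfl
  obtain ⟨E, hE⟩ : ∃ E : ℕ → ℕ → Prop, ∀ p j, E p j ↔ (p ∣ j ∧ ¬ p^2 ∣ j) :=
    ⟨fun p j => (p ∣ j ∧ ¬ p^2 ∣ j), fun _ _ => Iff.rfl⟩
  have h1 := hs (W 0 (K-10)) (K-10) (X+1) E (fun p => p - 1) hJ
    (fun p hp => ⟨prime_of_mem_W hp, by have := lt_of_mem_W hp; omega, le_of_mem_W hp⟩)
    (fun p _ j => by
      rw [hE, hE, Nat.dvd_mod_iff (⟨p, by ring⟩ : p ∣ p^2), Nat.dvd_mod_iff (dvd_refl (p^2))])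
    (fun p hp => by
      have h3 : (range (p^2)).filter (E p) = (range (p^2)).filter (fun j => p ∣ j ∧ ¬ p^2 ∣ j) :=
        filter_congr fun x _ => hE p x
      rw [h3]; exact card_exact p (prime_of_mem_W hp))
    (fun p _ => by omega)
  have hcard : (((range (X+1)).filter (fun v => ∀ p : ℕ, p.Prime → p ≠ 2 → p ≤ bb (K-10) →
      ¬ (p ∣ v ∧ ¬ p^2 ∣ v))).card : ℝ) ≤ C * ((X+1 : ℕ) : ℝ) *
        Real.exp (- ∑ p ∈ W 0 (K-10), ((p - 1 : ℕ) : ℝ) / (p:ℝ)^2) := by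
    refine le_trans ?_ h1
    refine Nat.cast_le.mpr ?_
    apply card_le_card
    intro v hv
    rw [mem_filter] at hv ⊢
    refine ⟨hv.1, fun p hp => ?_⟩
    rw [hE]
    refine hv.2 p (prime_of_mem_W hp) ?_ (le_of_mem_W hp)
    have := lt_of_mem_W hp
    omega
  have hexp : Real.exp (- ∑ p ∈ W 0 (K-10), ((p - 1 : ℕ) : ℝ) / (p:ℝ)^2) ≤
      Real.exp (C1 + 2) * 2^10 / 2^K := by
    have h4 : SW 0 (K-10) - 2 ≤ ∑ p ∈ W 0 (K-10), ((p - 1 : ℕ) : ℝ) / (p:ℝ)^2 := by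
      have e1 : ∑ p ∈ W 0 (K-10), ((p - 1 : ℕ) : ℝ) / (p:ℝ)^2 =
          SW 0 (K-10) - ∑ p ∈ W 0 (K-10), ((p:ℝ)^2)⁻¹ := by
        unfold SW
        rw [← sum_sub_distrib]
        refine sum_congr rfl fun p hp => ?_
        have h0 : (p:ℝ) ≠ 0 := by exact_mod_cast (prime_of_mem_W hp).ne_zero
        rw [Nat.cast_sub (prime_of_mem_W hp).one_le]
        push_cast
        field_simp
      have e2 : ∑ p ∈ W 0 (K-10), ((p:ℝ)^2)⁻¹ ≤ 2 := by
        have h5 := sum_Ioo_inv_sq_le (α := ℝ) 0 (bb (K-10) + 1)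
        have h6 : W 0 (K-10) ⊆ Ioo 0 (bb (K-10) + 1) := by
          intro p hp
          rw [mem_Ioo]
          exact ⟨(prime_of_mem_W hp).pos, by have := le_of_mem_W hp; omega⟩
        have h7 : ∑ p ∈ W 0 (K-10), ((p:ℝ)^2)⁻¹ ≤
            ∑ p ∈ Ioo 0 (bb (K-10) + 1), ((p:ℝ)^2)⁻¹ :=
          sum_le_sum_of_subset_of_nonneg h6 fun _ _ _ => inv_nonneg.mpr (sq_nonneg _)
        norm_num at h5 h7
        linarith
      rw [e1]
      linarith
    have h5 := hSW (K-10)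
    have h6 : (((K - 10 : ℕ)) : ℝ) = K - 10 := by
      rw [Nat.cast_sub (by omega)]; norm_num
    have h7 : Real.exp (C1 + 2) * 2^10 / 2^K = Real.exp (C1 + 2 - (K - 10) * Real.log 2) := by
      rw [Real.exp_sub, sub_mul, Real.exp_sub]
      have e1 : Real.exp ((K:ℝ) * Real.log 2) = 2^K := by
        rw [Real.exp_nat_mul, Real.exp_log (by norm_num)]
      have e2 : Real.exp ((10:ℝ) * Real.log 2) = 2^10 := by
        have := Real.exp_nat_mul (Real.log 2) 10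
        rw [Real.exp_log (by norm_num)] at this
        exact_mod_cast this
      rw [e1, e2, div_div_eq_mul_div]
    rw [h7]
    apply Real.exp_le_exp.mpr
    rw [h6] at h5
    linarith
  have hX0 : (0:ℝ) ≤ X := Nat.cast_nonneg _
  have hX1 : ((X + 1 : ℕ) : ℝ) ≤ 2 * X := by
    have h8 : 1 ≤ X := le_trans (bb_pos _) hX
    have h9 : (1:ℝ) ≤ X := by exact_mod_cast h8
    push_cast; linarith
  calc _ ≤ C * ((X+1 : ℕ) : ℝ) * Real.exp (- ∑ p ∈ W 0 (K-10), ((p - 1 : ℕ) : ℝ) / (p:ℝ)^2) := hcard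
    _ ≤ C * (2 * X) * (Real.exp (C1 + 2) * 2^10 / 2^K) := by gcongr
    _ = C * 2 * (Real.exp (C1 + 2) * 2^10) * X / 2^K := by ring

/-- The numbers divisible by the square of a prime above the windows. -/
theorem bNS : ∃ C : ℝ, 0 < C ∧ ∀ K X : ℕ, 2000 ≤ K → bb (K+6) ≤ X → X < bb (K+7) →
    (((range (X+1)).filter (fun v => 0 < v ∧ ¬ NS K v)).card : ℝ) ≤ C * X / 2^K := by
  refine ⟨2, by norm_num, ?_⟩
  intro K X hK _ _
  obtain ⟨N, hN⟩ : ∃ N, N = bb (kk K) := ⟨_, rfl⟩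
  have hb : (2:ℝ)^(10 * K + 10) ≤ N := by rw [hN]; exact s3_bb_kk K
  have hsub : (range (X+1)).filter (fun v => 0 < v ∧ ¬ NS K v) ⊆
      (Ioo N (X+1)).biUnion (fun l => (Ioc 0 X).filter (fun v => l^2 ∣ v)) := by
    intro v hv
    rw [mem_filter, mem_range] at hv
    obtain ⟨hvX, hv0, hns⟩ := hv
    unfold NS at hns
    push Not at hns
    obtain ⟨l, hl, hlN, hlv⟩ := hns
    rw [mem_biUnion]
    have h1 : l^2 ≤ v := Nat.le_of_dvd hv0 hlv
    have h2 : l ≤ l^2 := by rw [pow_two]; exact Nat.le_mul_of_pos_left l hl.pos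
    refine ⟨l, mem_Ioo.mpr ⟨by omega, by omega⟩, ?_⟩
    rw [mem_filter, mem_Ioc]
    exact ⟨⟨hv0, by omega⟩, hlv⟩
  have h1 : (((range (X+1)).filter (fun v => 0 < v ∧ ¬ NS K v)).card : ℝ) ≤
      ∑ l ∈ Ioo N (X+1), (X:ℝ) * ((l:ℝ)^2)⁻¹ := by
    have h2 := (card_le_card hsub).trans card_biUnion_le
    have h3 : (((range (X+1)).filter (fun v => 0 < v ∧ ¬ NS K v)).card : ℝ) ≤
        ((∑ l ∈ Ioo N (X+1), ((Ioc 0 X).filter (fun v => l^2 ∣ v)).card : ℕ) : ℝ) := by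
      exact_mod_cast h2
    refine h3.trans ?_
    push_cast
    refine sum_le_sum fun l _ => ?_
    rw [Nat.Ioc_filter_dvd_card_eq_div]
    refine (Nat.cast_div_le).trans ?_
    push_cast
    rw [div_eq_mul_inv]
  refine h1.trans ?_
  rw [← mul_sum]
  have h2 := sum_Ioo_inv_sq_le (α := ℝ) N (X+1)
  have h3 : (2:ℝ) / ((N:ℝ) + 1) ≤ 2 / 2^K := by
    have h4 : (2:ℝ)^K ≤ (2:ℝ)^(10*K+10) := pow_le_pow_right₀ (by norm_num) (by omega)
    have h5 : (0:ℝ) < 2^K := by positivity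
    exact div_le_div_of_nonneg_left (by norm_num) h5 (by linarith)
  have hX0 : (0:ℝ) ≤ X := Nat.cast_nonneg _
  calc (X:ℝ) * ∑ l ∈ Ioo N (X+1), ((l:ℝ)^2)⁻¹ ≤ X * (2 / 2^K) :=
        mul_le_mul_of_nonneg_left (h2.trans h3) hX0
    _ = 2 * X / 2^K := by ring

end Pool.Agent.H73.TK
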