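import Mathlib
import Pool.Agent.H73.TK.Logic
import Pool.Agent.H24.KS.S2

/-!
The case `1 ≤ |Ox| ≤ 2`.
-/

namespace Pool.Agent.H73.TK

open Finset Classical
open Pool.Agent.H95.Gol
open Pool.Agent.H24.KS

/-- `Ox` has exactly `r` elements -/
def CS2r (r K a b z x : ℕ) : Prop :=
  a < bb K ∧ (Ox K z x).card = r ∧ hasPe K (a * b + 1) ∧ NS K (a * b + 1)

theorem bS2r (r : ℕ) (hr : 1 ≤ r) (hr2 : r ≤ 2) : ∃ C : ℝ, 0 < C ∧ ∀ K X : ℕ, 2000 ≤ K →
    bb (K+6) ≤ X → X < bb (K+7) → (cnt X (CS2r r K) : ℝ) ≤ C * X / 2^K := by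
  obtain ⟨C1, hC1, hssum⟩ := ssum
  obtain ⟨C2, hC2, hSW⟩ := SW_lower
  obtain ⟨Cp, mp, hCp, hmp0, hmp1, hmp2⟩ := psum
  obtain ⟨Ct, mt, hCt, hmt0, hmt1, hmt2⟩ := tsum r hr (by omega)
  obtain ⟨Ca, hCa, hasum⟩ := asum (3/4) (by norm_num) (by norm_num)
  obtain ⟨Cb, hCb, habs⟩ := absorb (9/4) (r + 2) (1/4) (by norm_num)
  have hl2 : 0 < Real.log 2 := Real.log_pos (by norm_num)
  have hr2' : (r : ℝ) ≤ 2 := by exact_mod_cast hr2
  refine ⟨C1 * Real.exp (2 + 3/2 * C2) * 2 * Ct * Cp * Ca * Cb, by positivity, ?_⟩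
  intro K X hK hX1 hX2
  -- the summands
  have key := accumulate (Idx r K) X K (CS2r r K)
    (fun i a z b x => QS K a z i.1.2 i.2 i.1.1 b x ∧
      EvS K a z (insert i.1.2 i.1.1) (AT i.1.1) (fun _ => True) b x)
    (fun a b z x _ h => h.1) ?_
    (fun i => (∏ q ∈ i.1.1, (1:ℝ)/q) * Real.exp (mt K i.1.1) * (Real.exp (mp K i.1.2) / i.1.2))
    (fun a => (1:ℝ)/a * Real.exp (-(3/4) * SW (kk K) (ja a - 6)))
    (C1 * Real.exp (2 - 3/2 * SW (kk K) K) * X) ?_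
  · refine key.trans ?_
    have hw : ∑ i ∈ Idx r K, (∏ q ∈ i.1.1, (1:ℝ)/q) * Real.exp (mt K i.1.1) *
        (Real.exp (mp K i.1.2) / i.1.2) ≤ 2 * (Ct * (K+1)^r) * (Cp * (K+1)) := by
      have h1 := sum_Idx_le r K (fun T => (∏ q ∈ T, (1:ℝ)/q) * Real.exp (mt K T))
        (fun p => Real.exp (mp K p) / p)
        (fun T => mul_nonneg (prod_nonneg fun q _ => one_div_nonneg.2 (Nat.cast_nonneg _))
          (Real.exp_pos _).le)
        (fun p => div_nonneg (Real.exp_pos _).le (Nat.cast_nonneg _))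
      refine h1.trans ?_
      have h2 := hmt2 K hK
      have h3 := hmp2 K hK
      have h4 : 0 ≤ ∑ p ∈ (Pr (bb K)).filter (fun p => p ≠ 2), Real.exp (mp K p) / p :=
        sum_nonneg fun p _ => div_nonneg (Real.exp_pos _).le (Nat.cast_nonneg _)
      gcongr
    have hα := hasum K
    have hα0 : 0 ≤ ∑ a ∈ Ico 2 (bb K), (1:ℝ)/a * Real.exp (-(3/4) * SW (kk K) (ja a - 6)) :=
      sum_nonneg fun a _ => mul_nonneg (one_div_nonneg.2 (Nat.cast_nonneg _)) (Real.exp_pos _).le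
    have hE : Real.exp (2 - 3/2 * SW (kk K) K) ≤
        Real.exp (2 + 3/2 * C2) * Real.exp (-(3/2) * ((K:ℝ) - kk K) * Real.log 2) := by
      rw [← Real.exp_add]
      apply Real.exp_le_exp.mpr
      have := hSW (kk K) K
      nlinarith
    calc C1 * Real.exp (2 - 3/2 * SW (kk K) K) * X *
          (∑ i ∈ Idx r K, (∏ q ∈ i.1.1, (1:ℝ)/q) * Real.exp (mt K i.1.1) *
            (Real.exp (mp K i.1.2) / i.1.2)) *
          ∑ a ∈ Ico 2 (bb K), (1:ℝ)/a * Real.exp (-(3/4) * SW (kk K) (ja a - 6))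
        ≤ C1 * (Real.exp (2 + 3/2 * C2) * Real.exp (-(3/2) * ((K:ℝ) - kk K) * Real.log 2)) * X *
          (2 * (Ct * (K+1)^r) * (Cp * (K+1))) *
          (Ca * (K + 1) * Real.exp (((1 - 3/4) * K + 3/4 * kk K) * Real.log 2)) := by
          gcongr
      _ = C1 * Real.exp (2 + 3/2 * C2) * 2 * Ct * Cp * Ca * X *
          (Real.exp (-(3/2) * ((K:ℝ) - kk K) * Real.log 2) *
            Real.exp (((1 - 3/4) * K + 3/4 * kk K) * Real.log 2) * (K+1)^(r+2)) := by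
          rw [pow_add]
          ring
      _ = C1 * Real.exp (2 + 3/2 * C2) * 2 * Ct * Cp * Ca * X *
          (Real.exp (-(K * Real.log 2)) *
            (Real.exp ((9/4 * kk K - 1/4 * K) * Real.log 2) * (K+1)^(r+2))) := by
          have h5 : Real.exp (-(3/2) * ((K:ℝ) - kk K) * Real.log 2) *
              Real.exp (((1 - 3/4) * K + 3/4 * kk K) * Real.log 2) =
              Real.exp (-(K * Real.log 2)) * Real.exp ((9/4 * kk K - 1/4 * K) * Real.log 2) := by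
            rw [← Real.exp_add, ← Real.exp_add]
            congr 1
            ring
          rw [h5]
          ring
      _ ≤ C1 * Real.exp (2 + 3/2 * C2) * 2 * Ct * Cp * Ca * X *
          (Real.exp (-(K * Real.log 2)) * Cb) := by
          have := habs K
          gcongr
      _ = C1 * Real.exp (2 + 3/2 * C2) * 2 * Ct * Cp * Ca * Cb * X / 2^K := by
          have h6 : Real.exp (-(K * Real.log 2)) = 1 / 2^K := by
            rw [Real.exp_neg, Real.exp_nat_mul, Real.exp_log (by norm_num), one_div]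
          rw [h6]
          ring
  · -- the cover
    intro a b z x ha2 haK hz0 hza hTr hQ
    obtain ⟨_, hO, ⟨p, hp, hp2, hpK, hpv, hpv2⟩, hNS⟩ := hQ
    obtain ⟨h1, h2, h3⟩ := qs_of hTr (subset_refl (Ox K z x)) hp hp2 hpv hpv2
    refine ⟨((Ox K z x, p), sg (a * b + 1)), ?_, h1,
      evS2 hTr hNS (fun q hq => ⟨(h3 q hq).1, ?_⟩) _ (subset_insert _ _)
        (fun q hq => Or.inl (mem_insert_of_mem hq))⟩
    · rw [mem_Idx]
      exact ⟨⟨⟨fun q hq => mem_Pr.2 (h3 q hq), hO⟩, ⟨hp, hpK⟩, hp2⟩, sg_cases _, h2⟩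
    · unfold Ox at hq
      rw [mem_filter] at hq
      exact hq.2.2.2.2
  · -- the estimate for fixed `(T, p, s)`
    intro i hi a ha2 haK
    obtain ⟨⟨⟨hT, hTc⟩, ⟨hp, hpK⟩, hp2⟩, hs, hpT⟩ := mem_Idx.1 hi
    obtain ⟨⟨T, p⟩, s⟩ := i
    simp only at hT hTc hp hpK hp2 hs hpT ⊢
    have hTp : ∀ q ∈ T, q.Prime ∧ q ≤ bb K := fun q hq => mem_Pr.1 (hT hq)
    have hL : (3/2) * SW (kk K) K - mt K T - 2 ≤
        ∑ l ∈ W (kk K) K, (chi (AT T l) + chi ((fun _ => True) l)) / l := by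
      have h1 := densT T (fun q hq => (hTp q hq).1) (kk K) K (by have := kk_ge K; omega)
      have h3 := hmt1 K T K hK hTc (fun q hq => (hTp q hq).1) le_rfl
      have h5 : ∑ l ∈ W (kk K) K, (chi (AT T l) + chi ((fun _ : ℕ => True) l)) / (l:ℝ) =
          ∑ l ∈ W (kk K) K, chi (AT T l) / (l:ℝ) + SW (kk K) K := by
        unfold SW
        rw [← sum_add_distrib]
        refine sum_congr rfl fun l _ => ?_
        rw [chi_true trivial, add_div]
      rw [h5]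
      rw [hTc] at h1
      have h6 := SW_nonneg (kk K) K
      have h7 : (1/2:ℝ)^r ≤ 1/2 := by
        calc (1/2:ℝ)^r ≤ (1/2:ℝ)^1 := pow_le_pow_of_le_one (by norm_num) (by norm_num) hr
          _ = 1/2 := pow_one _
      nlinarith
    have h1 := hssum K X a p s T (fun _ => True) (fun _ => AT T) (fun _ => fun _ => True) _ hK
      hX1 ha2 haK hp hp2 hpK hTp (by rw [hTc]; omega) hpT hs (fun _ _ => hL)
    simp only [and_true] at h1
    refine h1.trans ?_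
    have hja : ja a - 6 ≤ K := by
      have := ja_le_of_lt ha2 haK
      omega
    have h2 : XD (ps p) (kk K) (ja a - 6) ≤ mp K p := hmp1 K p _ hK hp hp2 hja
    have h3 : Real.exp (-((3/2) * SW (kk K) K - mt K T - 2)) *
        Real.exp (-(3/4) * SW (kk K) (ja a - 6) + (1/4) * XD (ps p) (kk K) (ja a - 6)) ≤
        Real.exp (2 - 3/2 * SW (kk K) K) * Real.exp (mt K T) * Real.exp (mp K p) *
          Real.exp (-(3/4) * SW (kk K) (ja a - 6)) := by
      rw [← Real.exp_add, ← Real.exp_add, ← Real.exp_add, ← Real.exp_add]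
      apply Real.exp_le_exp.mpr
      have := hmp0 K p
      linarith
    have h4 : 0 ≤ ∏ q ∈ T, (1:ℝ)/q :=
      prod_nonneg fun q _ => one_div_nonneg.2 (Nat.cast_nonneg _)
    have h5 : 0 ≤ C1 * ((X:ℝ) / a) * (∏ q ∈ T, (1:ℝ)/q) * (1/p) :=
      mul_nonneg (mul_nonneg (mul_nonneg hC1.le (div_nonneg (Nat.cast_nonneg _)
        (Nat.cast_nonneg _))) h4) (one_div_nonneg.2 (Nat.cast_nonneg _))
    exact regroup h5 h3 rfl

theorem bS2 : ∃ C : ℝ, 0 < C ∧ ∀ K X : ℕ, 2000 ≤ K → bb (K+6) ≤ X → X < bb (K+7) →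
    (cnt X (CS2 K) : ℝ) ≤ C * X / 2^K := by
  obtain ⟨C1, hC1, h1⟩ := bS2r 1 le_rfl (by norm_num)
  obtain ⟨C2, hC2, h2⟩ := bS2r 2 (by norm_num) le_rfl
  refine ⟨C1 + C2, by positivity, fun K X hK hX1 hX2 => ?_⟩
  have h3 := cnt_or_le X (CS2 K) (CS2r 1 K) (CS2r 2 K) (by
    rintro a b z x ⟨e1, e2, e3, e4⟩
    unfold CS2r
    rcases Nat.lt_or_ge (Ox K z x).card 2 with h | h
    · exact Or.inl ⟨e1, by omega, e4⟩
    · exact Or.inr ⟨e1, by omega, e4⟩)
  have h4 : (cnt X (CS2 K) : ℝ) ≤ (cnt X (CS2r 1 K) : ℝ) + (cnt X (CS2r 2 K) : ℝ) := by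
    exact_mod_cast h3
  refine h4.trans ?_
  calc (cnt X (CS2r 1 K) : ℝ) + (cnt X (CS2r 2 K) : ℝ) ≤ C1 * X / 2^K + C2 * X / 2^K :=
        add_le_add (h1 K X hK hX1 hX2) (h2 K X hK hX1 hX2)
    _ = (C1 + C2) * X / 2^K := by ring

end Pool.Agent.H73.TK
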