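import Mathlib
import Pool.Agent.H73.TK.Logic
import Pool.Agent.H24.KS.S4

/-!
The case `CS4` (no large prime divides `z` to an odd power, and a small prime of odd exponent).
-/

namespace Pool.Agent.H73.TK

open Finset Classical
open Pool.Agent.H95.Gol
open Pool.Agent.H24.KS

theorem bS4 : ∃ C : ℝ, 0 < C ∧ ∀ K X : ℕ, 2000 ≤ K → bb (K+6) ≤ X → X < bb (K+7) →
    (cnt X (CS4 K) : ℝ) ≤ C * X / 2^K := by
  obtain ⟨C1, hC1, hfz⟩ := fz4
  obtain ⟨C2, hC2, hcount⟩ := s4_count
  obtain ⟨Cl, hCl, hlow⟩ := SW_lower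
  obtain ⟨Ct, m, hCt, hm0, hm1, hm2⟩ := tsum 1 (le_refl _) (by norm_num)
  obtain ⟨Ca, hCa, has⟩ := asum 1 (by norm_num) (by norm_num)
  obtain ⟨Cb, hCb, hab⟩ := absorb (5/2) 2 (1/2) (by norm_num)
  have hl2 : 0 < Real.log 2 := Real.log_pos (by norm_num)
  set c0 : ℝ := (3/2) * Cl + 1 with hc0
  refine ⟨C1 * C2 * Real.exp c0 * Ct * Ca * Cb, by positivity, fun K X hK hX _ => ?_⟩
  have hX0 : (0:ℝ) ≤ X := Nat.cast_nonneg X
  set L : ℝ := (3/2) * (((K:ℝ) - kk K) * Real.log 2) - c0 with hL
  have hkK : kk K ≤ K := by have := kk_lt K hK; omega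
  have hacc := accumulate (Pr (bb (kk K))) X K (CS4 K)
    (fun q a z b x => Z4 K a q z ∧ EvS K a z ∅ (AT {q}) (fun _ => True) b x)
    (fun a b z x _ h => h.2.1) ?_ (fun q => (1:ℝ)/q * Real.exp (m K {q}))
    (fun a => (1:ℝ)/a * Real.exp (-1 * SW (kk K) (ja a - 6))) (C1 * C2 * Real.exp (-L) * X) ?_
  · refine hacc.trans ?_
    have h1 : ∑ q ∈ Pr (bb (kk K)), (1:ℝ)/q * Real.exp (m K {q}) ≤ Ct * (K+1) := by
      have h2 := hm2 K hK
      rw [powersetCard_one, sum_map] at h2
      simp only [Function.Embedding.coeFn_mk, prod_singleton, pow_one] at h2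
      refine le_trans (sum_le_sum_of_subset_of_nonneg ?_ fun q _ _ =>
        mul_nonneg (one_div_nonneg.mpr (Nat.cast_nonneg _)) (Real.exp_pos _).le) h2
      intro q hq
      rw [mem_Pr] at hq ⊢
      exact ⟨hq.1, hq.2.trans (bb_mono hkK)⟩
    have h2 := has K
    have hs1 : 0 ≤ ∑ q ∈ Pr (bb (kk K)), (1:ℝ)/q * Real.exp (m K {q}) :=
      sum_nonneg fun q _ => mul_nonneg (one_div_nonneg.mpr (Nat.cast_nonneg _)) (Real.exp_pos _).le
    have hs2 : 0 ≤ ∑ a ∈ Ico 2 (bb K), (1:ℝ)/a * Real.exp (-1 * SW (kk K) (ja a - 6)) :=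
      sum_nonneg fun a _ => mul_nonneg (one_div_nonneg.mpr (Nat.cast_nonneg _)) (Real.exp_pos _).le
    have hE0 : 0 ≤ C1 * C2 * Real.exp (-L) * X :=
      mul_nonneg (mul_nonneg (mul_nonneg hC1.le hC2.le) (Real.exp_pos _).le) hX0
    have hK0 : (0:ℝ) ≤ (K:ℝ) + 1 := by positivity
    calc C1 * C2 * Real.exp (-L) * X * (∑ q ∈ Pr (bb (kk K)), (1:ℝ)/q * Real.exp (m K {q})) *
          ∑ a ∈ Ico 2 (bb K), (1:ℝ)/a * Real.exp (-1 * SW (kk K) (ja a - 6))
        ≤ C1 * C2 * Real.exp (-L) * X * (Ct * (K+1)) *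
          (Ca * (K+1) * Real.exp (((1 - 1) * K + 1 * kk K) * Real.log 2)) := by
          apply mul_le_mul (mul_le_mul_of_nonneg_left h1 hE0) h2 hs2
          exact mul_nonneg hE0 (mul_nonneg hCt.le hK0)
      _ = C1 * C2 * Real.exp c0 * Ct * Ca *
          (Real.exp ((5/2 * kk K - 1/2 * K) * Real.log 2) * (K+1)^2) * X *
            Real.exp (-(K * Real.log 2)) := by
          have e1 : Real.exp (-L) * Real.exp (((1 - 1) * K + 1 * kk K) * Real.log 2) =
              Real.exp c0 * Real.exp ((5/2 * kk K - 1/2 * K) * Real.log 2) *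
                Real.exp (-(K * Real.log 2)) := by
            rw [← Real.exp_add, ← Real.exp_add, ← Real.exp_add, hL]
            congr 1
            ring
          calc C1 * C2 * Real.exp (-L) * X * (Ct * (K+1)) *
              (Ca * (K+1) * Real.exp (((1 - 1) * K + 1 * kk K) * Real.log 2))
              = C1 * C2 * Ct * Ca * (K+1)^2 * X * (Real.exp (-L) *
                Real.exp (((1 - 1) * K + 1 * kk K) * Real.log 2)) := by ring
            _ = _ := by rw [e1]; ring
      _ ≤ C1 * C2 * Real.exp c0 * Ct * Ca * Cb * X * Real.exp (-(K * Real.log 2)) := by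
          apply mul_le_mul_of_nonneg_right _ (Real.exp_pos _).le
          apply mul_le_mul_of_nonneg_right _ hX0
          exact mul_le_mul_of_nonneg_left (hab K) (by positivity)
      _ = C1 * C2 * Real.exp c0 * Ct * Ca * Cb * X / 2^K := by
          rw [Real.exp_neg, mul_comm (K:ℝ) (Real.log 2), Real.exp_mul, Real.exp_log (by norm_num),
            Real.rpow_natCast, div_eq_mul_inv]
  · -- the cover
    intro a b z x ha2 haK hz0 hza hTr hQ
    obtain ⟨hNS, _, hOx, hno, q, hq, hqk, hqz, hqv, hqodd⟩ := hQ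
    refine ⟨q, mem_Pr.mpr ⟨hq, hqk⟩, ⟨hqz, ?_⟩, ?_⟩
    · rintro l hl ⟨h1, h2⟩
      have hlp := prime_of_mem_W hl
      refine hno l hlp (lt_of_mem_W hl) ?_
      have : Fact l.Prime := ⟨hlp⟩
      have h3 : 1 ≤ padicValNat l z := by
        rw [← padicValNat_dvd_iff_le hz0.ne', pow_one]
        exact h1
      have h4 : ¬ 2 ≤ padicValNat l z := by
        rw [← padicValNat_dvd_iff_le hz0.ne']
        exact h2
      have h5 : padicValNat l z = 1 := by omega
      rw [h5]
      exact odd_one
    · refine evS2 hTr hNS (T := {q}) ?_ _ (by rw [hOx]) ?_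
      · intro q' hq'
        rw [mem_singleton] at hq'
        rw [hq']
        exact ⟨hq, hqodd⟩
      · intro q' hq'
        rw [mem_singleton] at hq'
        rw [hq']
        exact Or.inr (Or.inr hqk)
  · -- the bound
    intro q hq a ha2 haK
    rw [mem_Pr] at hq
    obtain ⟨hq, hqk⟩ := hq
    have hq0 : (0:ℝ) < q := by exact_mod_cast hq.pos
    have ha0 : (0:ℝ) < a := by exact_mod_cast (by omega : 0 < a)
    have hB : ∀ z ∈ (Ico 1 a).filter (fun z => Nat.Coprime a z),
        (Bz X a z (fun b x => Z4 K a q z ∧ EvS K a z ∅ (AT {q}) (fun _ => True) b x) : ℝ) ≤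
          if Z4 K a q z then C1 * (X / a^2) * Real.exp (-L + m K {q}) else 0 := by
      intro z hz
      rw [mem_filter, mem_Ico] at hz
      rw [s4_Bz_and]
      split_ifs with hZ
      · have h1 := hfz K X a z ∅ (AT {q}) (fun _ => True) (fun _ _ _ => True) (fun _ => 0) hK hX
          ha2 haK hz.1.1 hz.1.2 hz.2 (by simp) (by rw [prod_empty]; exact Nat.one_le_pow _ _ (bb_pos K))
          (by simp) (by simp) (by simp)
        have h2 : (Bz X a z (EvS K a z ∅ (AT {q}) (fun _ => True)) : ℝ) ≤
            (Bz X a z (fun b x => (∀ q ∈ (∅ : Finset ℕ), True) ∧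
              EvS K a z ∅ (AT {q}) (fun _ => True) b x) : ℝ) := by
          have := Bz_mono (X := X) (a := a) (z := z)
            (Q := EvS K a z ∅ (AT {q}) (fun _ => True))
            (Q' := fun b x => (∀ q ∈ (∅ : Finset ℕ), True) ∧
              EvS K a z ∅ (AT {q}) (fun _ => True) b x) (fun b x _ _ h => ⟨by simp, h⟩)
          exact_mod_cast this
        refine (h2.trans h1).trans ?_
        rw [prod_empty, mul_one]
        apply mul_le_mul_of_nonneg_left _ (by positivity)
        apply Real.exp_le_exp.mpr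
        have h4 := densT {q} (by intro q' hq'; rw [mem_singleton] at hq'; rw [hq']; exact hq)
          (kk K) K (one_le_kk K)
        have h5 := hm1 K {q} K hK (card_singleton q)
          (by intro q' hq'; rw [mem_singleton] at hq'; rw [hq']; exact hq) (le_refl _)
        rw [card_singleton] at h4
        have h8 : ∑ l ∈ W (kk K) K, (chi (AT {q} l) + chi True) / (l:ℝ) =
            ∑ l ∈ W (kk K) K, chi (AT {q} l) / l + SW (kk K) K := by
          unfold SW
          rw [← sum_add_distrib]
          refine sum_congr rfl fun l _ => ?_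
          rw [chi_true trivial]
          ring
        rw [h8]
        have h9 := hlow (kk K) K
        rw [hL, hc0]
        push_cast at h4 h5
        linarith
      · exact le_refl _
    refine (sum_le_sum hB).trans ?_
    rw [← sum_filter, sum_const, nsmul_eq_mul]
    have h1 : ((((((Ico 1 a).filter (fun z => Nat.Coprime a z))).filter
        (fun z => Z4 K a q z)).card : ℕ) : ℝ) ≤
        C2 * (a / q) * Real.exp (- SW (kk K) (ja a - 6)) := by
      refine le_trans ?_ (hcount K a q ha2 hq hqk)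
      have : ((((Ico 1 a).filter (fun z => Nat.Coprime a z))).filter (fun z => Z4 K a q z)).card ≤
          ((Ico 1 a).filter (fun z => Z4 K a q z)).card := by
        apply card_le_card
        apply filter_subset_filter
        exact filter_subset _ _
      exact_mod_cast this
    have h2 : 0 ≤ C1 * (X / a^2) * Real.exp (-L + m K {q}) := by positivity
    refine (mul_le_mul_of_nonneg_right h1 h2).trans (le_of_eq ?_)
    rw [Real.exp_add, neg_one_mul]
    field_simp

end Pool.Agent.H73.TK
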