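import Mathlib
import Pool.Agent.H73.TK.Df
import Pool.Agent.H24.KS.Sq

/-!
Zone L: the divisors `a` with a large square divisor.
-/

namespace Pool.Agent.H73.TK

open Finset Classical
open Pool.Agent.H95.Gol
open Pool.Agent.H24.KS

theorem bSq : ∃ C : ℝ, 0 < C ∧ ∀ K X : ℕ, 2000 ≤ K → bb (K+6) ≤ X → X < bb (K+7) →
    (cnt X (fun a _ _ _ => bb K ≤ a ∧ ¬ NSq K a) : ℝ) ≤ C * X / 2^K := by
  refine ⟨1, one_pos, ?_⟩
  intro K X hK hX1 hX2
  have h1 := cnt_le_sumL X K (fun a _ _ _ => bb K ≤ a ∧ ¬ NSq K a) hX2 (fun _ _ _ _ _ h => h.1)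
  have h2 : ∀ a ∈ Ico (bb K) (bb (K+6)),
      ((Lz X a (fun b z x => Tr X a b z x ∧ (bb K ≤ a ∧ ¬ NSq K a)) : ℕ) : ℝ) ≤
        if ∃ d, bb (kk K) < d ∧ d^2 ∣ a then 2 * (X:ℝ) * ((1:ℝ)/a) else 0 := by
    intro a ha
    rw [mem_Ico] at ha
    have ha2 : 2 ≤ a := (two_le_bb K).trans ha.1
    split_ifs with hd
    · have e1 := Lz_triv X a ha2 (fun b z x => Tr X a b z x ∧ (bb K ≤ a ∧ ¬ NSq K a))
      have e2 : ((X / a + 1 : ℕ) : ℝ) ≤ 2 * (X:ℝ) * ((1:ℝ)/a) := by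
        have ha0 : (0:ℝ) < a := by exact_mod_cast (show 0 < a by omega)
        have e3 : ((X / a : ℕ) : ℝ) ≤ (X:ℝ) / a := Nat.cast_div_le
        have e4 : (1:ℝ) ≤ (X:ℝ)/a := by
          rw [le_div_iff₀ ha0, one_mul]
          exact_mod_cast (ha.2.le.trans hX1)
        push_cast
        have e5 : 2 * (X:ℝ) * ((1:ℝ)/a) = 2 * ((X:ℝ)/a) := by ring
        rw [e5]
        linarith
      exact le_trans (by exact_mod_cast e1) e2
    · have e1 : Lz X a (fun b z x => Tr X a b z x ∧ (bb K ≤ a ∧ ¬ NSq K a)) = 0 := by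
        unfold Lz
        rw [card_eq_zero, filter_eq_empty_iff]
        rintro ⟨b, z⟩ _ ⟨_, x, _, _, _, hn⟩
        apply hd
        unfold NSq at hn
        push Not at hn
        exact hn
      rw [e1]
      norm_num
  have h3 : (cnt X (fun a _ _ _ => bb K ≤ a ∧ ¬ NSq K a) : ℝ) ≤
      ∑ a ∈ Ico (bb K) (bb (K+6)),
        if ∃ d, bb (kk K) < d ∧ d^2 ∣ a then 2 * (X:ℝ) * ((1:ℝ)/a) else 0 := by
    refine le_trans ?_ (sum_le_sum h2)
    exact_mod_cast h1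
  rw [← sum_filter, ← mul_sum] at h3
  have h4 : ∑ a ∈ (Ico (bb K) (bb (K+6))).filter (fun a => ∃ d, bb (kk K) < d ∧ d^2 ∣ a),
      (1:ℝ)/a ≤ (2 / ((bb (kk K):ℝ) + 1)) * (1 + Real.log (bb (K+6))) := by
    refine le_trans ?_ (sum_large_sq (bb (K+6)) (bb (kk K)))
    apply sum_le_sum_of_subset_of_nonneg
    · apply filter_subset_filter
      apply Ico_subset_Ico_left
      exact bb_pos K
    · intro a _ _
      positivity
  have h5 : (2:ℝ)^(10*K+10) ≤ (bb (kk K) : ℝ) := by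
    have : 2^(10*K+10) ≤ bb (kk K) := by
      unfold bb
      exact Nat.pow_le_pow_right (by norm_num) (kk_pow K)
    exact_mod_cast this
  have h6 := log_bb_le_two_pow (K+6)
  have h7 : 0 ≤ Real.log (bb (K+6)) := Real.log_natCast_nonneg _
  have h8 : (0:ℝ) < 2^(10*K+10) := by positivity
  have h9 : (2 / ((bb (kk K):ℝ) + 1)) * (1 + Real.log (bb (K+6))) ≤
      (2 / 2^(10*K+10)) * (2^(K+7)) := by
    apply mul_le_mul
    · apply div_le_div_of_nonneg_left (by norm_num) h8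
      linarith
    · have e1 : (2:ℝ)^(K+7) = 2 * 2^(K+6) := by rw [pow_succ]; ring
      have e2 : (1:ℝ) ≤ 2^(K+6) := one_le_pow₀ (by norm_num)
      rw [e1]
      linarith
    · linarith
    · positivity
  have h10 : (2 / 2^(10*K+10)) * ((2:ℝ)^(K+7)) ≤ 1/2 * (1 / 2^K) := by
    have e1 : (2:ℝ)^(10*K+10) = 2^(K+9) * (2^K * 2^(8*K+1)) := by
      rw [← pow_add, ← pow_add]
      congr 1
      ring
    have e2 : (1:ℝ) ≤ 2^(8*K+1) := one_le_pow₀ (by norm_num)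
    have e3 : (2:ℝ)^(K+9) = 4 * 2^(K+7) := by
      rw [show K + 9 = (K+7) + 2 by ring, pow_add]; ring
    have p1 : (0:ℝ) < 2^(K+7) := by positivity
    have p2 : (0:ℝ) < 2^K := by positivity
    rw [e1, e3]
    have e4 : 2 / (4 * 2^(K+7) * (2^K * 2^(8*K+1))) * (2:ℝ)^(K+7) =
        1/2 * (1/(2^K * 2^(8*K+1))) := by
      field_simp
      norm_num
    rw [e4]
    apply mul_le_mul_of_nonneg_left _ (by norm_num)
    apply one_div_le_one_div_of_le p2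
    exact le_mul_of_one_le_right p2.le e2
  have hX0 : (0:ℝ) ≤ X := Nat.cast_nonneg _
  calc (cnt X (fun a _ _ _ => bb K ≤ a ∧ ¬ NSq K a) : ℝ)
      ≤ 2 * (X:ℝ) * ∑ a ∈ (Ico (bb K) (bb (K+6))).filter
          (fun a => ∃ d, bb (kk K) < d ∧ d^2 ∣ a), (1:ℝ)/a := h3
    _ ≤ 2 * (X:ℝ) * (1/2 * (1 / 2^K)) :=
        mul_le_mul_of_nonneg_left (h4.trans (h9.trans h10)) (by positivity)
    _ = 1 * X / 2^K := by ring

end Pool.Agent.H73.TK
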