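import Mathlib
import Pool.Agent.H73.TK.Cover
import Pool.Agent.H73.TK.Rough
import Pool.Agent.H73.TK.S1
import Pool.Agent.H73.TK.S2
import Pool.Agent.H73.TK.S3
import Pool.Agent.H73.TK.S4
import Pool.Agent.H73.TK.S5
import Pool.Agent.H73.TK.Sq
import Pool.Agent.H73.TK.L0
import Pool.Agent.H73.TK.L1
import Pool.Agent.H73.TK.L2
import Pool.Agent.H24.KS.MainAux

/-!
The upper bound `O(X / log X)`.
-/

namespace Pool.Agent.H73.TK

open Finset Classical
open Pool.Agent.H95.Gol
open Pool.Agent.H24.KS

/-- a bound on all windows gives a bound for all `X` -/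
theorem upper_of (f : ℕ → ℕ → ℕ) (hf : BoundQ f)
    (hcov : ∀ K X, 2000 ≤ K → X < bb (K+7) → (richPowOrders X).ncard ≤ f K X) :
    ∃ C : ℝ, 0 < C ∧ ∀ X : ℕ, 2 ≤ X → ((richPowOrders X).ncard : ℝ) ≤ C * X / Real.log X := by
  obtain ⟨C, hC, h⟩ := hf
  have hl2 : 0 < Real.log 2 := Real.log_pos (by norm_num)
  obtain ⟨N0, hN0⟩ : ∃ n : ℕ, n = 2006 := ⟨_, rfl⟩
  set M : ℝ := Real.log (bb N0) with hM
  have hM0 : 0 < M := by
    apply Real.log_pos
    have h := two_le_bb N0
    exact_mod_cast (show 1 < bb N0 by omega)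
  refine ⟨2 * M + C * (2^7 * Real.log 2), by positivity, ?_⟩
  intro X hX
  have hX2 : (2:ℝ) ≤ X := by exact_mod_cast hX
  have hlogX : 0 < Real.log X := Real.log_pos (by linarith)
  rcases lt_or_ge X (bb N0) with hs | hs
  · -- small X
    have h1 : (richPowOrders X).ncard ≤ X + 1 := by
      have hsub : richPowOrders X ⊆ ((range (X+1) : Finset ℕ) : Set ℕ) := by
        intro v hv
        rw [mem_coe, mem_range]
        have : v ≤ X := hv.1
        omega
      have := Set.ncard_le_ncard hsub (Finset.finite_toSet _)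
      rw [Set.ncard_coe_finset, card_range] at this
      exact this
    have h2 : ((richPowOrders X).ncard : ℝ) ≤ 2 * X := by
      have : ((richPowOrders X).ncard : ℝ) ≤ X + 1 := by exact_mod_cast h1
      linarith
    have h3 : Real.log X ≤ M := Real.log_le_log (by linarith) (by exact_mod_cast hs.le)
    rw [le_div_iff₀ hlogX]
    calc ((richPowOrders X).ncard : ℝ) * Real.log X ≤ (2 * X) * M :=
          mul_le_mul h2 h3 hlogX.le (by positivity)
      _ ≤ (2 * M + C * (2^7 * Real.log 2)) * X := by
          have : 0 ≤ C * (2^7 * Real.log 2) * X := by positivity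
          linarith
  · -- large X
    have hex : ∃ K, X < bb (K+7) := by
      refine ⟨X, ?_⟩
      have h3 : X < 2^X := Nat.lt_two_pow_self
      have h4 : 2^X ≤ bb X := by
        unfold bb
        exact Nat.pow_le_pow_right (by norm_num) Nat.lt_two_pow_self.le
      have h5 : bb X ≤ bb (X+7) := bb_mono (by omega)
      omega
    set K := Nat.find hex with hK
    have hfind := Nat.find_spec hex
    have hK2 : 2000 ≤ K := by
      by_contra hcon
      push Not at hcon
      have h6 : bb (K+7) ≤ bb N0 := bb_mono (by omega)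
      exact absurd (hfind.trans_le h6) (not_lt.mpr hs)
    have hlo : bb (K+6) ≤ X := by
      have hmin := Nat.find_min hex (m := K - 1) (by omega)
      push Not at hmin
      have : K - 1 + 7 = K + 6 := by omega
      rwa [this] at hmin
    have h1 := h K X hK2 hlo hfind
    have h2 := hcov K X hK2 hfind
    have h3 : Real.log X ≤ 2^7 * 2^K * Real.log 2 := by
      have e1 : Real.log X ≤ Real.log (bb (K+7)) :=
        Real.log_le_log (by linarith) (by exact_mod_cast hfind.le)
      have e2 : Real.log (bb (K+7)) = 2^(K+7) * Real.log 2 := by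
        unfold bb
        push_cast
        rw [Real.log_pow]; push_cast; ring
      rw [e2, pow_add] at e1
      linarith
    have h4 : ((richPowOrders X).ncard : ℝ) ≤ C * X / 2^K :=
      le_trans (by exact_mod_cast h2) h1
    refine h4.trans ?_
    have h2K : (0:ℝ) < 2^K := by positivity
    rw [div_le_div_iff₀ h2K hlogX]
    calc C * X * Real.log X ≤ C * X * (2^7 * 2^K * Real.log 2) :=
          mul_le_mul_of_nonneg_left h3 (by positivity)
      _ ≤ (2 * M + C * (2^7 * Real.log 2)) * X * 2^K := by
          have : 0 ≤ 2 * M * X * 2^K := by positivity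
          nlinarith

/-- The upper bound for the orders of symmetric designs with automorphisms of prime power order for
all primes which divide the order exactly. -/
theorem upper : ∃ C : ℝ, 0 < C ∧ ∀ X : ℕ, 2 ≤ X →
    ((richPowOrders X).ncard : ℝ) ≤ C * X / Real.log X := by
  have hN : BoundQ (fun K X => ((range (X+1)).filter (fun v => 0 < v ∧ ¬ NS K v)).card) := bNS
  have h0 : BoundQ (fun K X => ((range (X+1)).filter
    (fun v => ∀ p : ℕ, p.Prime → p ≠ 2 → p ≤ bb (K-10) → ¬ (p ∣ v ∧ ¬ p^2 ∣ v))).card) := bRough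
  have h1 : BoundQ (fun K X => cnt X (CS1 K)) := bS1
  have h2 : BoundQ (fun K X => cnt X (CS2 K)) := bS2
  have h3 : BoundQ (fun K X => cnt X (CS3 K)) := bS3
  have h4 : BoundQ (fun K X => cnt X (CS4 K)) := bS4
  have h5 : BoundQ (fun K X => cnt X (CS5 K)) := bS5
  have h6 : BoundQ (fun K X => cnt X (fun a _ _ _ => bb K ≤ a ∧ ¬ NSq K a)) := bSq
  have h7 : BoundQ (fun K X => cnt X (fun a b z x => CL0 K a b z x ∧ NSq K a)) := bL0
  have h8 : BoundQ (fun K X => cnt X (fun a b z x => CL1 K a b z x ∧ NSq K a)) := bL1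
  have h9 : BoundQ (fun K X => cnt X (fun a b z x => CL2 K a b z x ∧ NSq K a)) := bL2
  have h := (((((((((hN.add h0).add h1).add h2).add h3).add h4).add h5).add h6).add h7).add
    h8).add h9
  exact upper_of _ h (fun K X hK hX => cover K X hK hX)

end Pool.Agent.H73.TK
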